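import Mathlib

/-!
# Faulty search on `m` rays: cyclic monotone trajectories are never optimal

For all `m ≥ 2` and `p ∈ (0, 1)` the infimum of the competitive ratio over all trajectories is
strictly smaller than the infimum over the cyclic monotone trajectories.

Given a cyclic monotone trajectory with turning distances `x 0, x 1, …` of ratio `R`, scale it down
and replace the excursion to `x (n + m)` by: go to `z n = min ((1 + ε) x n, x (n + m))`, back to `x n`,
out to `x (n + m)`, and back to the origin. The points just beyond `x n`, which are the worst ones,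
get two additional early passes; the other points gain more from their larger distance than they
lose by the delay.
-/

open Finset Filter Topology
open scoped ENNReal

set_option linter.unusedSectionVars false

namespace Pool.Agent.Results.MP_d94893_lc.NotCyclicRays

/-- The time at which leg `k` begins (unit speed). -/
noncomputable def legTime (y : ℕ → ℝ) (k : ℕ) : ℝ := ∑ i ∈ range k, |y (i + 1) - y i|

/-- A trajectory on `m` rays (numbered `0, …, m - 1`) given by its legs: leg `k` is a straight move on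
ray `ρ k` from distance `y k` to distance `y (k + 1) ≠ y k`; the trajectory starts at the origin,
the ray can only change at the origin, and the total length is infinite. -/
def IsTrajectory (m : ℕ) (ρ : ℕ → ℕ) (y : ℕ → ℝ) : Prop :=
  y 0 = 0 ∧ (∀ k, 0 ≤ y k) ∧ (∀ k, y (k + 1) ≠ y k) ∧ (∀ k, ρ k < m) ∧
    (∀ k, y (k + 1) ≠ 0 → ρ (k + 1) = ρ k) ∧ ¬ Summable fun k => |y (k + 1) - y k|

/-- Cyclic monotone trajectories: excursion `k` goes on ray `k mod m` to distance `x k` and back; the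
turning distances on each ray are strictly increasing and tend to infinity. -/
def IsCyclicMonotone (m : ℕ) (ρ : ℕ → ℕ) (y : ℕ → ℝ) : Prop :=
  ∃ x : ℕ → ℝ, (∀ k, 0 < x k) ∧ (∀ k, x k < x (k + m)) ∧
    (∀ k, Tendsto (fun l => x (k + l * m)) atTop atTop) ∧
    (∀ k, y (2 * k) = 0 ∧ y (2 * k + 1) = x k ∧ ρ (2 * k) = k % m ∧ ρ (2 * k + 1) = k % m)

/-- The probability that a treasure on ray `j` at distance `d > 0` which has not been detected before
is detected in leg `k`: it is `1` if the leg ends at the treasure and the searcher reverses direction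
there, `p` if the leg passes over the treasure (or ends there without a reversal), and `0` if the
leg does not pass over the treasure. -/
noncomputable def det (p : ℝ) (ρ : ℕ → ℕ) (y : ℕ → ℝ) (j : ℕ) (d : ℝ) (k : ℕ) : ℝ :=
  open Classical in
  if ρ k = j ∧ d = y (k + 1) ∧ (y (k + 1) - y k) * (y (k + 2) - y (k + 1)) < 0 then 1
  else if ρ k = j ∧ (d = y (k + 1) ∨ (min (y k) (y (k + 1)) < d ∧ d < max (y k) (y (k + 1)))) then p
  else 0

/-- The probability that the treasure is not detected in the legs before leg `k`. -/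
noncomputable def surv (p : ℝ) (ρ : ℕ → ℕ) (y : ℕ → ℝ) (j : ℕ) (d : ℝ) (k : ℕ) : ℝ :=
  ∏ i ∈ range k, (1 - det p ρ y j d i)

/-- The expected time of the first detection: the sum over the legs `k` of the probability that the
first detection occurs in leg `k` times the time of the pass in leg `k`, plus infinity times the
probability that there is no detection. -/
noncomputable def expTime (p : ℝ) (ρ : ℕ → ℕ) (y : ℕ → ℝ) (j : ℕ) (d : ℝ) : ℝ≥0∞ :=
  (∑' k, ENNReal.ofReal (surv p ρ y j d k * det p ρ y j d k * (legTime y k + |d - y k|))) +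
    ⊤ * ENNReal.ofReal (⨅ k, surv p ρ y j d k)

/-- The competitive ratio. -/
noncomputable def ratio (m : ℕ) (p : ℝ) (ρ : ℕ → ℕ) (y : ℕ → ℝ) : ℝ≥0∞ :=
  ⨆ (j : ℕ) (_ : j < m) (d : ℝ) (_ : 1 ≤ d),
    ENNReal.ofReal p * expTime p ρ y j d / ENNReal.ofReal d

/-! ### General facts -/

section general

variable {p : ℝ} {ρ : ℕ → ℕ} {y : ℕ → ℝ} {j : ℕ} {d : ℝ}

/-- partial sums of the expected time -/
noncomputable def VV (p : ℝ) (ρ : ℕ → ℕ) (y : ℕ → ℝ) (j : ℕ) (d : ℝ) (K : ℕ) : ℝ :=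
  ∑ k ∈ range K, surv p ρ y j d k * det p ρ y j d k * (legTime y k + |d - y k|)

lemma det_nonneg (hp0 : 0 ≤ p) (k : ℕ) : 0 ≤ det p ρ y j d k := by
  unfold det; split_ifs <;> simp [hp0]

lemma det_le_one (hp1 : p ≤ 1) (k : ℕ) : det p ρ y j d k ≤ 1 := by
  unfold det; split_ifs <;> simp [hp1]

lemma surv_nonneg (hp1 : p ≤ 1) (k : ℕ) : 0 ≤ surv p ρ y j d k := by
  unfold surv
  apply Finset.prod_nonneg
  intro i _
  have := det_le_one (ρ := ρ) (y := y) (j := j) (d := d) hp1 i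
  linarith

lemma surv_succ (k : ℕ) : surv p ρ y j d (k + 1) = surv p ρ y j d k * (1 - det p ρ y j d k) := by
  unfold surv; rw [Finset.prod_range_succ]

lemma VV_succ (k : ℕ) : VV p ρ y j d (k + 1) = VV p ρ y j d k +
    surv p ρ y j d k * det p ρ y j d k * (legTime y k + |d - y k|) := by
  unfold VV; rw [Finset.sum_range_succ]

lemma legTime_nonneg (k : ℕ) : 0 ≤ legTime y k := by
  unfold legTime; exact Finset.sum_nonneg fun i _ => abs_nonneg _

lemma legTime_succ (k : ℕ) : legTime y (k + 1) = legTime y k + |y (k + 1) - y k| := by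
  unfold legTime; rw [Finset.sum_range_succ]

lemma term_nonneg (hp0 : 0 ≤ p) (hp1 : p ≤ 1) (k : ℕ) :
    0 ≤ surv p ρ y j d k * det p ρ y j d k * (legTime y k + |d - y k|) := by
  apply mul_nonneg (mul_nonneg (surv_nonneg hp1 k) (det_nonneg hp0 k))
  exact add_nonneg (legTime_nonneg k) (abs_nonneg _)

lemma VV_mono (hp0 : 0 ≤ p) (hp1 : p ≤ 1) : Monotone (VV p ρ y j d) := by
  apply monotone_nat_of_le_succ
  intro k
  rw [VV_succ]
  have := term_nonneg (ρ := ρ) (y := y) (j := j) (d := d) hp0 hp1 k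
  linarith

lemma VV_le_expTime (hp0 : 0 ≤ p) (hp1 : p ≤ 1) (K : ℕ) :
    ENNReal.ofReal (VV p ρ y j d K) ≤ expTime p ρ y j d := by
  unfold VV expTime
  rw [ENNReal.ofReal_sum_of_nonneg (fun k _ => term_nonneg hp0 hp1 k)]
  exact (ENNReal.sum_le_tsum _).trans le_self_add

lemma expTime_le (hp0 : 0 ≤ p) (hp1 : p ≤ 1) {M : ℝ} (hV : ∀ K, VV p ρ y j d K ≤ M)
    (hs : ∀ η : ℝ, 0 < η → ∃ k, surv p ρ y j d k < η) :
    expTime p ρ y j d ≤ ENNReal.ofReal M := by
  have h1 : (⨅ k, surv p ρ y j d k) ≤ 0 := by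
    by_contra hcon
    rw [not_le] at hcon
    obtain ⟨k, hk⟩ := hs _ hcon
    have : (⨅ k, surv p ρ y j d k) ≤ surv p ρ y j d k :=
      ciInf_le ⟨0, by rintro _ ⟨k, rfl⟩; exact surv_nonneg hp1 k⟩ k
    linarith
  unfold expTime
  rw [ENNReal.ofReal_of_nonpos h1, mul_zero, add_zero]
  apply ENNReal.tsum_le_of_sum_range_le
  intro K
  rw [← ENNReal.ofReal_sum_of_nonneg (fun k _ => term_nonneg hp0 hp1 k)]
  exact ENNReal.ofReal_le_ofReal (hV K)

end general

/-! ### Residues -/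

lemma mod_ne {m N i : ℕ} (hi : i + 1 < m) : (N + 1 + i) % m ≠ N % m := by
  intro h
  have h1 : m ∣ (N + 1 + i) - N := (Nat.modEq_iff_dvd' (by omega)).1 (show N ≡ N + 1 + i [MOD m]
    from h.symm)
  have h2 : (N + 1 + i) - N = 1 + i := by omega
  rw [h2] at h1
  have := Nat.le_of_dvd (by omega) h1
  omega

lemma skip_range (F : ℕ → ℝ) {m N : ℕ} (hm : 0 < m)
    (h : ∀ k, N < k → k % m ≠ N % m → F (k + 1) = F k) : F (N + m) = F (N + 1) := by
  have key : ∀ i, i + 1 ≤ m → F (N + 1 + i) = F (N + 1) := by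
    intro i
    induction i with
    | zero => intro _; rfl
    | succ i ih =>
      intro hi
      have h1 := h (N + 1 + i) (by omega) (mod_ne (by omega))
      rw [show N + 1 + (i + 1) = N + 1 + i + 1 by ring, h1, ih (by omega)]
  have := key (m - 1) (by omega)
  rw [← this]
  congr 1
  omega

lemma mono_res {x : ℕ → ℝ} {m : ℕ} (hx : ∀ k, x k < x (k + m)) (n l : ℕ) :
    x n ≤ x (n + l * m) := by
  induction l with
  | zero => simp
  | succ l ih =>
    have := hx (n + l * m)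
    rw [show n + (l + 1) * m = n + l * m + m by ring]
    linarith

lemma mono_res' {x : ℕ → ℝ} {m : ℕ} (hx : ∀ k, x k < x (k + m)) {k n : ℕ}
    (hkn : k ≤ n) (h : k % m = n % m) : x k ≤ x n := by
  have h1 : m ∣ n - k := (Nat.modEq_iff_dvd' hkn).1 h
  obtain ⟨l, hl⟩ := h1
  have : n = k + l * m := by rw [mul_comm]; omega
  rw [this]
  exact mono_res hx k l

/-- start of excursion `k` -/
noncomputable def SS (x : ℕ → ℝ) (k : ℕ) : ℝ := 2 * ∑ i ∈ range k, x i

lemma SS_succ (x : ℕ → ℝ) (k : ℕ) : SS x (k + 1) = SS x k + 2 * x k := by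
  unfold SS; rw [Finset.sum_range_succ]; ring

lemma SS_mono {x : ℕ → ℝ} (hx : ∀ k, 0 < x k) : Monotone (SS x) := by
  apply monotone_nat_of_le_succ
  intro k
  rw [SS_succ]
  have := hx k
  linarith

/-! ### The cyclic monotone trajectory -/

section cyclic

variable {m : ℕ} {p : ℝ} {ρ : ℕ → ℕ} {y x : ℕ → ℝ}

lemma cyc_time (hx0 : ∀ k, 0 < x k)
    (hy : ∀ k, y (2 * k) = 0 ∧ y (2 * k + 1) = x k ∧ ρ (2 * k) = k % m ∧ ρ (2 * k + 1) = k % m)
    (k : ℕ) : legTime y (2 * k) = SS x k ∧ legTime y (2 * k + 1) = SS x k + x k := by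
  have step : ∀ k, legTime y (2 * k + 1) = legTime y (2 * k) + x k := by
    intro k
    rw [legTime_succ, (hy k).1, (hy k).2.1, sub_zero, abs_of_pos (hx0 k)]
  have step2 : ∀ k, legTime y (2 * (k + 1)) = legTime y (2 * k) + 2 * x k := by
    intro k
    rw [show 2 * (k + 1) = 2 * k + 1 + 1 by ring, legTime_succ, step,
      show 2 * k + 1 + 1 = 2 * (k + 1) by ring, (hy (k + 1)).1, (hy k).2.1, zero_sub, abs_neg,
      abs_of_pos (hx0 k)]
    ring
  have h0 : ∀ k, legTime y (2 * k) = SS x k := by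
    intro k
    induction k with
    | zero => simp [legTime, SS]
    | succ k ih => rw [step2, ih, SS_succ]
  exact ⟨h0 k, by rw [step, h0]⟩

lemma cyc_skip
    (hy : ∀ k, y (2 * k) = 0 ∧ y (2 * k + 1) = x k ∧ ρ (2 * k) = k % m ∧ ρ (2 * k + 1) = k % m)
    {j : ℕ} {h : ℝ} (h0 : 0 < h) (k : ℕ) (hk : k % m ≠ j ∨ x k < h) :
    det p ρ y j h (2 * k) = 0 ∧ det p ρ y j h (2 * k + 1) = 0 := by
  obtain ⟨e1, e2, e3, e4⟩ := hy k
  have e5 := (hy (k + 1)).1
  rw [show 2 * (k + 1) = 2 * k + 1 + 1 by ring] at e5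
  constructor
  · unfold det
    rcases hk with hk | hk
    · rw [if_neg (by rw [e3]; tauto), if_neg (by rw [e3]; tauto)]
    · rw [if_neg, if_neg]
      · rw [e1, e2]
        rintro ⟨-, h1 | ⟨-, h1⟩⟩
        · linarith
        · rcases lt_max_iff.1 h1 with h2 | h2 <;> linarith
      · rw [e2]
        rintro ⟨-, h1, -⟩
        linarith
  · unfold det
    rcases hk with hk | hk
    · rw [if_neg (by rw [e4]; tauto), if_neg (by rw [e4]; tauto)]
    · rw [if_neg, if_neg]
      · rw [e5, e2]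
        rintro ⟨-, h1 | ⟨-, h1⟩⟩
        · linarith
        · rcases lt_max_iff.1 h1 with h2 | h2 <;> linarith
      · rw [e5]
        rintro ⟨-, h1, -⟩
        linarith

lemma cyc_hit
    (hy : ∀ k, y (2 * k) = 0 ∧ y (2 * k + 1) = x k ∧ ρ (2 * k) = k % m ∧ ρ (2 * k + 1) = k % m)
    {h : ℝ} (h0 : 0 < h) (k : ℕ) (hk : h < x k) :
    det p ρ y (k % m) h (2 * k) = p ∧ det p ρ y (k % m) h (2 * k + 1) = p := by
  obtain ⟨e1, e2, e3, e4⟩ := hy k
  have e5 := (hy (k + 1)).1
  rw [show 2 * (k + 1) = 2 * k + 1 + 1 by ring] at e5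
  constructor
  · unfold det
    rw [if_neg, if_pos]
    · rw [e1, e2, e3]
      exact ⟨rfl, Or.inr ⟨min_lt_iff.2 (Or.inl h0), lt_max_iff.2 (Or.inr hk)⟩⟩
    · rw [e2]
      rintro ⟨-, h1, -⟩
      linarith
  · unfold det
    rw [if_neg, if_pos]
    · rw [e5, e2, e4]
      exact ⟨rfl, Or.inr ⟨min_lt_iff.2 (Or.inr h0), lt_max_iff.2 (Or.inl hk)⟩⟩
    · rw [e5]
      rintro ⟨-, h1, -⟩
      linarith

/-- partial sums of the expected time for the cyclic monotone trajectory -/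
lemma cyc_VV (hm : 0 < m) (hx0 : ∀ k, 0 < x k) (hx : ∀ k, x k < x (k + m))
    (hy : ∀ k, y (2 * k) = 0 ∧ y (2 * k + 1) = x k ∧ ρ (2 * k) = k % m ∧ ρ (2 * k + 1) = k % m)
    (n : ℕ) {h : ℝ} (h1 : x n < h) (h2 : h < x (n + m)) (L : ℕ) :
    VV p ρ y (n % m) h (2 * (n + m + L * m)) =
      ∑ l ∈ range L, ((1 - p) ^ 2) ^ l * (p * (SS x (n + m + l * m) + h) +
        p * (1 - p) * (SS x (n + m + l * m + 1) - h)) ∧
    surv p ρ y (n % m) h (2 * (n + m + L * m)) = ((1 - p) ^ 2) ^ L := by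
  have h0 : 0 < h := (hx0 n).trans h1
  set j := n % m with hj
  -- skipping
  have hskip : ∀ k, (k % m ≠ j ∨ x k < h) → VV p ρ y j h (2 * (k + 1)) = VV p ρ y j h (2 * k) ∧
      surv p ρ y j h (2 * (k + 1)) = surv p ρ y j h (2 * k) := by
    intro k hk
    obtain ⟨d1, d2⟩ := cyc_skip (p := p) hy h0 k hk
    constructor
    · rw [show 2 * (k + 1) = 2 * k + 1 + 1 by ring, VV_succ, VV_succ, d1, d2]; ring
    · rw [show 2 * (k + 1) = 2 * k + 1 + 1 by ring, surv_succ, surv_succ, d1, d2]; ring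
  have hhit : ∀ k, k % m = j → h < x k → VV p ρ y j h (2 * (k + 1)) = VV p ρ y j h (2 * k) +
      surv p ρ y j h (2 * k) * (p * (SS x k + h) + p * (1 - p) * (SS x (k + 1) - h)) ∧
      surv p ρ y j h (2 * (k + 1)) = surv p ρ y j h (2 * k) * (1 - p) ^ 2 := by
    intro k hk hk2
    obtain ⟨d1, d2⟩ := cyc_hit (m := m) (p := p) hy h0 k hk2
    rw [hk] at d1 d2
    obtain ⟨t1, t2⟩ := cyc_time hx0 hy k
    constructor
    · rw [show 2 * (k + 1) = 2 * k + 1 + 1 by ring, VV_succ, VV_succ, surv_succ, d1, d2, t1, t2,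
        (hy k).1, (hy k).2.1, SS_succ, abs_of_pos (by linarith : 0 < h - 0),
        abs_of_neg (by linarith : h - x k < 0)]
      ring
    · rw [show 2 * (k + 1) = 2 * k + 1 + 1 by ring, surv_succ, surv_succ, d1, d2]; ring
  -- the beginning
  have hbeg : ∀ k, k ≤ n + m → VV p ρ y j h (2 * k) = 0 ∧ surv p ρ y j h (2 * k) = 1 := by
    intro k
    induction k with
    | zero => intro _; simp [VV, surv]
    | succ k ih =>
      intro hk
      have hc : k % m ≠ j ∨ x k < h := by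
        by_cases hkj : k % m = j
        · right
          rcases Nat.lt_or_ge n k with hlt | hge
          · exfalso
            have h3 : m ∣ k - n := (Nat.modEq_iff_dvd' hlt.le).1 (show n ≡ k [MOD m] from
              (hkj.trans hj).symm)
            have := Nat.le_of_dvd (by omega) h3
            omega
          · exact lt_of_le_of_lt (mono_res' hx hge (hkj.trans hj)) h1
        · left; exact hkj
      obtain ⟨s1, s2⟩ := hskip k hc
      obtain ⟨i1, i2⟩ := ih (by omega)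
      exact ⟨s1.trans i1, s2.trans i2⟩
  induction L with
  | zero =>
    obtain ⟨b1, b2⟩ := hbeg (n + m) le_rfl
    simp only [zero_mul, add_zero, Finset.range_zero, Finset.sum_empty, pow_zero]
    exact ⟨b1, b2⟩
  | succ L ih =>
    obtain ⟨i1, i2⟩ := ih
    have hmod : (n + m + L * m) % m = j := by
      rw [show n + m + L * m = n + (L + 1) * m by ring, Nat.add_mul_mod_self_right]
    have hlt : h < x (n + m + L * m) := lt_of_lt_of_le h2 (mono_res hx (n + m) L)
    obtain ⟨g1, g2⟩ := hhit _ hmod hlt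
    have r1 := skip_range (fun k => VV p ρ y j h (2 * k)) (N := n + m + L * m) hm
      (fun k _ hk => (hskip k (Or.inl (by rw [hmod] at hk; exact hk))).1)
    have r2 := skip_range (fun k => surv p ρ y j h (2 * k)) (N := n + m + L * m) hm
      (fun k _ hk => (hskip k (Or.inl (by rw [hmod] at hk; exact hk))).2)
    rw [show n + m + (L + 1) * m = n + m + L * m + m by ring]
    constructor
    · rw [r1, g1, i1, i2, Finset.sum_range_succ]
    · rw [r2, g2, i2, pow_succ ((1 - p) ^ 2) L]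

end cyclic

/-! ### The zigzag trajectory -/

section zigzag

variable (m : ℕ) (x : ℕ → ℝ) (ε : ℝ)

/-- the additional turning point -/
noncomputable def zz (n : ℕ) : ℝ := min ((1 + ε) * x n) (x (n + m))

/-- the waypoints -/
noncomputable def y1 (k : ℕ) : ℝ :=
  if k % 4 = 0 then 0 else if k % 4 = 1 then zz m x ε (k / 4) else
    if k % 4 = 2 then x (k / 4) else x (k / 4 + m)

/-- the rays -/
def ρ1 (k : ℕ) : ℕ := (k / 4) % m

variable {m x ε}

lemma y1_0 (n : ℕ) : y1 m x ε (4 * n) = 0 := by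
  unfold y1; rw [if_pos (by omega)]

lemma y1_1 (n : ℕ) : y1 m x ε (4 * n + 1) = zz m x ε n := by
  unfold y1; rw [if_neg (by omega), if_pos (by omega)]; congr 1; omega

lemma y1_2 (n : ℕ) : y1 m x ε (4 * n + 2) = x n := by
  unfold y1; rw [if_neg (by omega), if_neg (by omega), if_pos (by omega)]; congr 1; omega

lemma y1_3 (n : ℕ) : y1 m x ε (4 * n + 3) = x (n + m) := by
  unfold y1; rw [if_neg (by omega), if_neg (by omega), if_neg (by omega)]; congr 1; omega

lemma y1_4 (n : ℕ) : y1 m x ε (4 * n + 4) = 0 := by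
  rw [show 4 * n + 4 = 4 * (n + 1) by ring, y1_0]

lemma y1_5 (n : ℕ) : y1 m x ε (4 * n + 5) = zz m x ε (n + 1) := by
  rw [show 4 * n + 5 = 4 * (n + 1) + 1 by ring, y1_1]

lemma ρ1_eq (n i : ℕ) (hi : i < 4) : ρ1 m (4 * n + i) = n % m := by
  unfold ρ1; congr 1; omega

lemma zz_gt (hε : 0 < ε) (hx0 : ∀ k, 0 < x k) (hx : ∀ k, x k < x (k + m)) (n : ℕ) :
    x n < zz m x ε n := by
  unfold zz
  apply lt_min
  · have := mul_pos hε (hx0 n); linarith
  · exact hx n

lemma zz_le (n : ℕ) : zz m x ε n ≤ x (n + m) := min_le_right _ _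

lemma zz_le' (n : ℕ) : zz m x ε n ≤ (1 + ε) * x n := min_le_left _ _

lemma four_cases (k : ℕ) : ∃ n, k = 4 * n ∨ k = 4 * n + 1 ∨ k = 4 * n + 2 ∨ k = 4 * n + 3 :=
  ⟨k / 4, by omega⟩

lemma y1_traj (hm : 0 < m) (hε : 0 < ε) (hx0 : ∀ k, 0 < x k) (hx : ∀ k, x k < x (k + m)) :
    IsTrajectory m (ρ1 m) (y1 m x ε) := by
  have hz := zz_gt hε hx0 hx
  refine ⟨by simpa using y1_0 (m := m) (x := x) (ε := ε) 0, ?_, ?_, ?_, ?_, ?_⟩
  · intro k
    obtain ⟨n, h | h | h | h⟩ := four_cases k <;> rw [h]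
    · rw [y1_0]
    · rw [y1_1]; exact ((hx0 n).trans (hz n)).le
    · rw [y1_2]; exact (hx0 n).le
    · rw [y1_3]; exact (hx0 _).le
  · intro k
    obtain ⟨n, h | h | h | h⟩ := four_cases k <;> rw [h]
    · rw [y1_1, y1_0]; exact ((hx0 n).trans (hz n)).ne'
    · rw [y1_2, y1_1]; exact (hz n).ne
    · rw [y1_3, y1_2]; exact (hx n).ne'
    · rw [y1_4, y1_3]; exact (hx0 _).ne
  · intro k; unfold ρ1; exact Nat.mod_lt _ hm
  · intro k
    obtain ⟨n, h | h | h | h⟩ := four_cases k <;> rw [h]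
    · intro _
      rw [ρ1_eq n 1 (by norm_num)]; exact (ρ1_eq n 0 (by norm_num)).symm
    · intro _
      rw [ρ1_eq n 2 (by norm_num), ρ1_eq n 1 (by norm_num)]
    · intro _
      rw [ρ1_eq n 3 (by norm_num), ρ1_eq n 2 (by norm_num)]
    · intro h'; exact absurd (y1_4 n) h'
  · intro hs
    have h1 := hs.tendsto_atTop_zero
    have h2 : Tendsto (fun l : ℕ => 4 * (l * m) + 3) atTop atTop := by
      apply tendsto_atTop_mono (fun l => ?_) tendsto_id
      have : l * 1 ≤ l * m := Nat.mul_le_mul_left l hm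
      simp only [id]
      omega
    have h3 := h1.comp h2
    have h4 : ∀ l, x 0 ≤ ((fun k => |y1 m x ε (k + 1) - y1 m x ε k|) ∘
        (fun l : ℕ => 4 * (l * m) + 3)) l := by
      intro l
      simp only [Function.comp]
      rw [y1_4, y1_3, zero_sub, abs_neg, abs_of_pos (hx0 _)]
      have := mono_res hx 0 (l + 1)
      rw [show 0 + (l + 1) * m = l * m + m by ring] at this
      exact this
    have := ge_of_tendsto' h3 h4
    exact absurd (hx0 0) (not_lt.2 this)

/-- additional time -/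
noncomputable def W (m : ℕ) (x : ℕ → ℝ) (ε : ℝ) (n : ℕ) : ℝ :=
  ∑ k ∈ range n, 2 * (zz m x ε k - x k)

lemma W_succ (n : ℕ) : W m x ε (n + 1) = W m x ε n + 2 * (zz m x ε n - x n) := by
  unfold W; rw [Finset.sum_range_succ]

lemma W_le (n : ℕ) : W m x ε n ≤ ε * SS x n := by
  induction n with
  | zero => simp [W, SS]
  | succ n ih =>
    rw [W_succ, SS_succ]
    have := zz_le' (m := m) (x := x) (ε := ε) n
    nlinarith

lemma leg_step (hε : 0 < ε) (hx0 : ∀ k, 0 < x k) (hx : ∀ k, x k < x (k + m)) (n : ℕ) :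
    legTime (y1 m x ε) (4 * n + 1) = legTime (y1 m x ε) (4 * n) + zz m x ε n ∧
    legTime (y1 m x ε) (4 * n + 2) = legTime (y1 m x ε) (4 * n) + 2 * zz m x ε n - x n ∧
    legTime (y1 m x ε) (4 * n + 3) =
      legTime (y1 m x ε) (4 * n) + 2 * zz m x ε n - 2 * x n + x (n + m) ∧
    legTime (y1 m x ε) (4 * (n + 1)) =
      legTime (y1 m x ε) (4 * n) + 2 * (zz m x ε n - x n) + 2 * x (n + m) := by
  have hz := zz_gt hε hx0 hx n
  have h0 := hx0 n
  have h1 := hx n
  have h2 := hx0 (n + m)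
  have e1 : legTime (y1 m x ε) (4 * n + 1) = legTime (y1 m x ε) (4 * n) + zz m x ε n := by
    rw [legTime_succ, y1_1, y1_0, sub_zero, abs_of_pos (by linarith)]
  have e2 : legTime (y1 m x ε) (4 * n + 2) =
      legTime (y1 m x ε) (4 * n) + 2 * zz m x ε n - x n := by
    rw [show 4 * n + 2 = 4 * n + 1 + 1 by ring, legTime_succ, e1,
      show 4 * n + 1 + 1 = 4 * n + 2 by ring, y1_1, y1_2, abs_of_neg (by linarith)]
    ring
  have e3 : legTime (y1 m x ε) (4 * n + 3) =
      legTime (y1 m x ε) (4 * n) + 2 * zz m x ε n - 2 * x n + x (n + m) := by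
    rw [show 4 * n + 3 = 4 * n + 2 + 1 by ring, legTime_succ, e2,
      show 4 * n + 2 + 1 = 4 * n + 3 by ring, y1_2, y1_3, abs_of_pos (by linarith)]
    ring
  refine ⟨e1, e2, e3, ?_⟩
  rw [show 4 * (n + 1) = 4 * n + 3 + 1 by ring, legTime_succ, e3,
    show 4 * n + 3 + 1 = 4 * n + 4 by ring, y1_3, y1_4, zero_sub, abs_neg, abs_of_pos h2]
  ring

lemma time_le (hε : 0 < ε) (hx0 : ∀ k, 0 < x k) (hx : ∀ k, x k < x (k + m)) (n : ℕ) :
    legTime (y1 m x ε) (4 * n) ≤ SS x (n + m) + W m x ε n := by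
  induction n with
  | zero =>
    have : 0 ≤ SS x (0 + m) := by
      have := SS_mono hx0 (Nat.zero_le (0 + m))
      simpa [SS] using this
    simpa [legTime, W] using this
  | succ n ih =>
    rw [(leg_step hε hx0 hx n).2.2.2, W_succ, show n + 1 + m = n + m + 1 by ring, SS_succ]
    linarith

variable {p : ℝ} {j : ℕ} {d : ℝ}

/-- one block of four legs -/
lemma block (hε : 0 < ε) (hx0 : ∀ k, 0 < x k) (hx : ∀ k, x k < x (k + m)) (n : ℕ) {c0 c1 c2 c3 : ℝ}
    (h0 : det p (ρ1 m) (y1 m x ε) j d (4 * n) = c0)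
    (h1 : det p (ρ1 m) (y1 m x ε) j d (4 * n + 1) = c1)
    (h2 : det p (ρ1 m) (y1 m x ε) j d (4 * n + 2) = c2)
    (h3 : det p (ρ1 m) (y1 m x ε) j d (4 * n + 3) = c3) :
    VV p (ρ1 m) (y1 m x ε) j d (4 * (n + 1)) = VV p (ρ1 m) (y1 m x ε) j d (4 * n) +
      surv p (ρ1 m) (y1 m x ε) j d (4 * n) *
        (c0 * (legTime (y1 m x ε) (4 * n) + |d|) +
         (1 - c0) * c1 * (legTime (y1 m x ε) (4 * n) + zz m x ε n + |d - zz m x ε n|) +
         (1 - c0) * (1 - c1) * c2 *
          (legTime (y1 m x ε) (4 * n) + 2 * zz m x ε n - x n + |d - x n|) +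
         (1 - c0) * (1 - c1) * (1 - c2) * c3 *
          (legTime (y1 m x ε) (4 * n) + 2 * zz m x ε n - 2 * x n + x (n + m) + |d - x (n + m)|)) ∧
    surv p (ρ1 m) (y1 m x ε) j d (4 * (n + 1)) = surv p (ρ1 m) (y1 m x ε) j d (4 * n) *
      ((1 - c0) * (1 - c1) * (1 - c2) * (1 - c3)) := by
  obtain ⟨l1, l2, l3, -⟩ := leg_step hε hx0 hx n
  have s1 := surv_succ (p := p) (ρ := ρ1 m) (y := y1 m x ε) (j := j) (d := d) (4 * n)
  have s2 := surv_succ (p := p) (ρ := ρ1 m) (y := y1 m x ε) (j := j) (d := d) (4 * n + 1)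
  have s3 := surv_succ (p := p) (ρ := ρ1 m) (y := y1 m x ε) (j := j) (d := d) (4 * n + 2)
  have s4 := surv_succ (p := p) (ρ := ρ1 m) (y := y1 m x ε) (j := j) (d := d) (4 * n + 3)
  have v1 := VV_succ (p := p) (ρ := ρ1 m) (y := y1 m x ε) (j := j) (d := d) (4 * n)
  have v2 := VV_succ (p := p) (ρ := ρ1 m) (y := y1 m x ε) (j := j) (d := d) (4 * n + 1)
  have v3 := VV_succ (p := p) (ρ := ρ1 m) (y := y1 m x ε) (j := j) (d := d) (4 * n + 2)
  have v4 := VV_succ (p := p) (ρ := ρ1 m) (y := y1 m x ε) (j := j) (d := d) (4 * n + 3)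
  rw [h0] at s1 v1
  rw [h1, show 4 * n + 1 + 1 = 4 * n + 2 by ring] at s2 v2
  rw [h2, show 4 * n + 2 + 1 = 4 * n + 3 by ring] at s3 v3
  rw [h3, show 4 * n + 3 + 1 = 4 * (n + 1) by ring] at s4 v4
  rw [y1_0, sub_zero] at v1
  rw [y1_1, l1] at v2
  rw [y1_2, l2] at v3
  rw [y1_3, l3] at v4
  constructor
  · rw [v4, v3, v2, v1, s3, s2, s1]; ring
  · rw [s4, s3, s2, s1]; ring

/-- no pass -/
lemma det_none (hε : 0 < ε) (hx0 : ∀ k, 0 < x k) (hx : ∀ k, x k < x (k + m)) (n : ℕ)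
    (h : n % m ≠ j ∨ x (n + m) < d) :
    det p (ρ1 m) (y1 m x ε) j d (4 * n) = 0 ∧ det p (ρ1 m) (y1 m x ε) j d (4 * n + 1) = 0 ∧
    det p (ρ1 m) (y1 m x ε) j d (4 * n + 2) = 0 ∧
    det p (ρ1 m) (y1 m x ε) j d (4 * n + 3) = 0 := by
  have g0 := ρ1_eq (m := m) n 0 (by norm_num)
  have g1 := ρ1_eq (m := m) n 1 (by norm_num)
  have g2 := ρ1_eq (m := m) n 2 (by norm_num)
  have g3 := ρ1_eq (m := m) n 3 (by norm_num)
  rw [add_zero] at g0
  rcases h with h | h
  · refine ⟨?_, ?_, ?_, ?_⟩ <;> unfold det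
    · rw [g0, if_neg (by tauto), if_neg (by tauto)]
    · rw [g1, if_neg (by tauto), if_neg (by tauto)]
    · rw [g2, if_neg (by tauto), if_neg (by tauto)]
    · rw [g3, if_neg (by tauto), if_neg (by tauto)]
  · have hz := zz_gt hε hx0 hx n
    have hz2 := zz_le (m := m) (x := x) (ε := ε) n
    have h0 := hx0 n
    have hm' := hx n
    refine ⟨?_, ?_, ?_, ?_⟩ <;> unfold det
    · rw [y1_0, y1_1, if_neg, if_neg]
      · rintro ⟨-, h1 | ⟨-, h1⟩⟩
        · linarith
        · rcases lt_max_iff.1 h1 with h2 | h2 <;> linarith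
      · rintro ⟨-, h1, -⟩
        linarith
    · rw [show 4 * n + 1 + 1 = 4 * n + 2 by ring, y1_1, y1_2, if_neg, if_neg]
      · rintro ⟨-, h1 | ⟨-, h1⟩⟩
        · linarith
        · rcases lt_max_iff.1 h1 with h2 | h2 <;> linarith
      · rintro ⟨-, h1, -⟩
        linarith
    · rw [show 4 * n + 2 + 1 = 4 * n + 3 by ring, y1_2, y1_3, if_neg, if_neg]
      · rintro ⟨-, h1 | ⟨-, h1⟩⟩
        · linarith
        · rcases lt_max_iff.1 h1 with h2 | h2 <;> linarith
      · rintro ⟨-, h1, -⟩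
        linarith
    · rw [show 4 * n + 3 + 1 = 4 * n + 4 by ring, y1_3, y1_4, if_neg, if_neg]
      · rintro ⟨-, h1 | ⟨-, h1⟩⟩
        · linarith
        · rcases lt_max_iff.1 h1 with h2 | h2 <;> linarith
      · rintro ⟨-, h1, -⟩
        linarith

/-- the treasure is closer than `x n` -/
lemma det_late (hε : 0 < ε) (hx0 : ∀ k, 0 < x k) (hx : ∀ k, x k < x (k + m)) (hd : 0 < d) (n : ℕ)
    (hj : n % m = j) (h : d < x n) :
    det p (ρ1 m) (y1 m x ε) j d (4 * n) = p ∧ det p (ρ1 m) (y1 m x ε) j d (4 * n + 1) = 0 ∧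
    det p (ρ1 m) (y1 m x ε) j d (4 * n + 2) = 0 ∧
    det p (ρ1 m) (y1 m x ε) j d (4 * n + 3) = p := by
  have g0 := ρ1_eq (m := m) n 0 (by norm_num)
  have g1 := ρ1_eq (m := m) n 1 (by norm_num)
  have g2 := ρ1_eq (m := m) n 2 (by norm_num)
  have g3 := ρ1_eq (m := m) n 3 (by norm_num)
  rw [add_zero] at g0
  have hz := zz_gt hε hx0 hx n
  have hz2 := zz_le (m := m) (x := x) (ε := ε) n
  have h0 := hx0 n
  have hm' := hx n
  refine ⟨?_, ?_, ?_, ?_⟩ <;> unfold det
  · rw [y1_0, y1_1, g0, if_neg, if_pos]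
    · exact ⟨hj, Or.inr ⟨min_lt_iff.2 (Or.inl hd), lt_max_iff.2 (Or.inr (by linarith))⟩⟩
    · rintro ⟨-, h1, -⟩
      linarith
  · rw [show 4 * n + 1 + 1 = 4 * n + 2 by ring, y1_1, y1_2, if_neg, if_neg]
    · rintro ⟨-, h1 | ⟨h1, -⟩⟩
      · linarith
      · rcases min_lt_iff.1 h1 with h2 | h2 <;> linarith
    · rintro ⟨-, h1, -⟩
      linarith
  · rw [show 4 * n + 2 + 1 = 4 * n + 3 by ring, y1_2, y1_3, if_neg, if_neg]
    · rintro ⟨-, h1 | ⟨h1, -⟩⟩
      · linarith
      · rcases min_lt_iff.1 h1 with h2 | h2 <;> linarith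
    · rintro ⟨-, h1, -⟩
      linarith
  · rw [show 4 * n + 3 + 1 = 4 * n + 4 by ring, y1_3, y1_4, g3, if_neg, if_pos]
    · exact ⟨hj, Or.inr ⟨min_lt_iff.2 (Or.inr hd), lt_max_iff.2 (Or.inl (by linarith))⟩⟩
    · rintro ⟨-, h1, -⟩
      linarith

/-- the treasure is in the zigzag zone -/
lemma det_zone (hε : 0 < ε) (hx0 : ∀ k, 0 < x k) (hx : ∀ k, x k < x (k + m)) (n : ℕ)
    (hj : n % m = j) (h1 : x n < d) (h2 : d < zz m x ε n) :
    det p (ρ1 m) (y1 m x ε) j d (4 * n) = p ∧ det p (ρ1 m) (y1 m x ε) j d (4 * n + 1) = p ∧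
    det p (ρ1 m) (y1 m x ε) j d (4 * n + 2) = p ∧
    det p (ρ1 m) (y1 m x ε) j d (4 * n + 3) = p := by
  have g0 := ρ1_eq (m := m) n 0 (by norm_num)
  have g1 := ρ1_eq (m := m) n 1 (by norm_num)
  have g2 := ρ1_eq (m := m) n 2 (by norm_num)
  have g3 := ρ1_eq (m := m) n 3 (by norm_num)
  rw [add_zero] at g0
  have hz := zz_gt hε hx0 hx n
  have hz2 := zz_le (m := m) (x := x) (ε := ε) n
  have h0 := hx0 n
  have hm' := hx n
  refine ⟨?_, ?_, ?_, ?_⟩ <;> unfold det
  · rw [y1_0, y1_1, g0, if_neg, if_pos]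
    · exact ⟨hj, Or.inr ⟨min_lt_iff.2 (Or.inl (by linarith)),
        lt_max_iff.2 (Or.inr (by linarith))⟩⟩
    · rintro ⟨-, h1, -⟩
      linarith
  · rw [show 4 * n + 1 + 1 = 4 * n + 2 by ring, y1_1, y1_2, g1, if_neg, if_pos]
    · exact ⟨hj, Or.inr ⟨min_lt_iff.2 (Or.inr (by linarith)),
        lt_max_iff.2 (Or.inl (by linarith))⟩⟩
    · rintro ⟨-, h1, -⟩
      linarith
  · rw [show 4 * n + 2 + 1 = 4 * n + 3 by ring, y1_2, y1_3, g2, if_neg, if_pos]
    · exact ⟨hj, Or.inr ⟨min_lt_iff.2 (Or.inl (by linarith)),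
        lt_max_iff.2 (Or.inr (by linarith))⟩⟩
    · rintro ⟨-, h1, -⟩
      linarith
  · rw [show 4 * n + 3 + 1 = 4 * n + 4 by ring, y1_3, y1_4, g3, if_neg, if_pos]
    · exact ⟨hj, Or.inr ⟨min_lt_iff.2 (Or.inr (by linarith)),
        lt_max_iff.2 (Or.inl (by linarith))⟩⟩
    · rintro ⟨-, h1, -⟩
      linarith

/-- the treasure is beyond the zigzag zone -/
lemma det_far (hε : 0 < ε) (hx0 : ∀ k, 0 < x k) (hx : ∀ k, x k < x (k + m)) (n : ℕ)
    (hj : n % m = j) (h1 : zz m x ε n < d) (h2 : d < x (n + m)) :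
    det p (ρ1 m) (y1 m x ε) j d (4 * n) = 0 ∧ det p (ρ1 m) (y1 m x ε) j d (4 * n + 1) = 0 ∧
    det p (ρ1 m) (y1 m x ε) j d (4 * n + 2) = p ∧
    det p (ρ1 m) (y1 m x ε) j d (4 * n + 3) = p := by
  have g0 := ρ1_eq (m := m) n 0 (by norm_num)
  have g1 := ρ1_eq (m := m) n 1 (by norm_num)
  have g2 := ρ1_eq (m := m) n 2 (by norm_num)
  have g3 := ρ1_eq (m := m) n 3 (by norm_num)
  rw [add_zero] at g0
  have hz := zz_gt hε hx0 hx n
  have h0 := hx0 n
  have hm' := hx n
  refine ⟨?_, ?_, ?_, ?_⟩ <;> unfold det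
  · rw [y1_0, y1_1, if_neg, if_neg]
    · rintro ⟨-, h1 | ⟨-, h1⟩⟩
      · linarith
      · rcases lt_max_iff.1 h1 with h2 | h2 <;> linarith
    · rintro ⟨-, h1, -⟩
      linarith
  · rw [show 4 * n + 1 + 1 = 4 * n + 2 by ring, y1_1, y1_2, if_neg, if_neg]
    · rintro ⟨-, h1 | ⟨-, h1⟩⟩
      · linarith
      · rcases lt_max_iff.1 h1 with h2 | h2 <;> linarith
    · rintro ⟨-, h1, -⟩
      linarith
  · rw [show 4 * n + 2 + 1 = 4 * n + 3 by ring, y1_2, y1_3, g2, if_neg, if_pos]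
    · exact ⟨hj, Or.inr ⟨min_lt_iff.2 (Or.inl (by linarith)),
        lt_max_iff.2 (Or.inr (by linarith))⟩⟩
    · rintro ⟨-, h1, -⟩
      linarith
  · rw [show 4 * n + 3 + 1 = 4 * n + 4 by ring, y1_3, y1_4, g3, if_neg, if_pos]
    · exact ⟨hj, Or.inr ⟨min_lt_iff.2 (Or.inr (by linarith)),
        lt_max_iff.2 (Or.inl (by linarith))⟩⟩
    · rintro ⟨-, h1, -⟩
      linarith

/-- the treasure is at the new turning point -/
lemma det_turn (hε : 0 < ε) (hx0 : ∀ k, 0 < x k) (hx : ∀ k, x k < x (k + m)) (n : ℕ)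
    (hj : n % m = j) (h1 : d = zz m x ε n) :
    det p (ρ1 m) (y1 m x ε) j d (4 * n) = 1 := by
  have g0 := ρ1_eq (m := m) n 0 (by norm_num)
  rw [add_zero] at g0
  have hz := zz_gt hε hx0 hx n
  have h0 := hx0 n
  unfold det
  rw [y1_0, y1_1, y1_2, g0, if_pos]
  refine ⟨hj, h1, ?_⟩
  rw [sub_zero]
  exact mul_neg_of_pos_of_neg (by linarith) (by linarith)

/-- the treasure is at the turning point `x (n + m)` -/
lemma det_turn' (hε : 0 < ε) (hx0 : ∀ k, 0 < x k) (hx : ∀ k, x k < x (k + m)) (n : ℕ)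
    (hj : n % m = j) (h1 : d = x (n + m)) (h2 : zz m x ε n < d) :
    det p (ρ1 m) (y1 m x ε) j d (4 * n) = 0 ∧ det p (ρ1 m) (y1 m x ε) j d (4 * n + 1) = 0 ∧
    det p (ρ1 m) (y1 m x ε) j d (4 * n + 2) = 1 := by
  have g2 := ρ1_eq (m := m) n 2 (by norm_num)
  have hz := zz_gt hε hx0 hx n
  have h0 := hx0 n
  have hm' := hx n
  refine ⟨?_, ?_, ?_⟩ <;> unfold det
  · rw [y1_0, y1_1, if_neg, if_neg]
    · rintro ⟨-, h1 | ⟨-, h1⟩⟩
      · linarith
      · rcases lt_max_iff.1 h1 with h2 | h2 <;> linarith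
    · rintro ⟨-, h1, -⟩
      linarith
  · rw [show 4 * n + 1 + 1 = 4 * n + 2 by ring, y1_1, y1_2, if_neg, if_neg]
    · rintro ⟨-, h1 | ⟨-, h1⟩⟩
      · linarith
      · rcases lt_max_iff.1 h1 with h2 | h2 <;> linarith
    · rintro ⟨-, h1, -⟩
      linarith
  · rw [show 4 * n + 2 + 1 = 4 * n + 3 by ring, show 4 * n + 2 + 2 = 4 * n + 4 by ring,
      y1_2, y1_3, y1_4, g2, if_pos]
    refine ⟨hj, h1, ?_⟩
    exact mul_neg_of_pos_of_neg (by linarith) (by linarith)

end zigzag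

/-! ### Analysis of the zigzag trajectory -/

section analysis

variable {m : ℕ} {x : ℕ → ℝ} {p ε r h0 : ℝ}

/-- the hypothesis on the scaled turning distances -/
def Hyp (m : ℕ) (x : ℕ → ℝ) (p r h0 : ℝ) : Prop :=
  ∀ (n : ℕ) (h : ℝ), x n < h → h < x (n + m) → h0 ≤ h → ∀ L : ℕ,
    ∑ l ∈ range L, ((1 - p) ^ 2) ^ l * (p * (SS x (n + m + l * m) + h) +
      p * (1 - p) * (SS x (n + m + l * m + 1) - h)) ≤ r * h

/-- the sum `A` -/
noncomputable def AA (m : ℕ) (x : ℕ → ℝ) (p : ℝ) (n : ℕ) : ℝ :=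
  ∑' l : ℕ, ((1 - p) ^ 2) ^ l * (p * SS x (n + m + l * m) + p * (1 - p) * SS x (n + m + l * m + 1))

/-- the sum `Y` -/
noncomputable def YY (m : ℕ) (x : ℕ → ℝ) (p : ℝ) (n : ℕ) : ℝ :=
  ∑' l : ℕ, ((1 - p) ^ 2) ^ l * (p * (2 - p) * SS x (n + l * m + 1))

lemma SS_nonneg (hx0 : ∀ k, 0 < x k) (k : ℕ) : 0 ≤ SS x k := by
  have := SS_mono hx0 (Nat.zero_le k)
  simpa [SS] using this

lemma hasA (hp0 : 0 < p) (hp1 : p < 1) (hx0 : ∀ k, 0 < x k) (hH : Hyp m x p r h0) (n : ℕ)
    (hc : max (x n) h0 < x (n + m)) :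
    HasSum (fun l : ℕ => ((1 - p) ^ 2) ^ l *
      (p * SS x (n + m + l * m) + p * (1 - p) * SS x (n + m + l * m + 1))) (AA m x p n) := by
  apply Summable.hasSum
  set c := max (x n) h0 with hcd
  have hc1 : x n ≤ c := le_max_left _ _
  have hc2 : h0 ≤ c := le_max_right _ _
  set h := (c + x (n + m)) / 2 with hh
  have hq : 0 ≤ 1 - p := by linarith
  have hpos : 0 < h := by
    have := hx0 n; have := hx0 (n + m); rw [hh]; linarith
  apply summable_of_sum_range_le (c := r * h)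
  · intro l
    have h1 := SS_nonneg hx0 (n + m + l * m)
    have h2 := SS_nonneg hx0 (n + m + l * m + 1)
    positivity
  · intro L
    refine le_trans ?_ (hH n h (by rw [hh]; linarith) (by rw [hh]; linarith)
      (by rw [hh]; linarith) L)
    apply Finset.sum_le_sum
    intro l _
    apply mul_le_mul_of_nonneg_left _ (by positivity)
    have : 0 ≤ p * h * p := by positivity
    nlinarith

lemma hasGeo (hp0 : 0 < p) (hp1 : p < 1) : HasSum (fun l : ℕ => ((1 - p) ^ 2) ^ l)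
    (1 / (p * (2 - p))) := by
  have h1 : (1 - p) ^ 2 < 1 := by nlinarith
  have := hasSum_geometric_of_lt_one (by positivity : (0 : ℝ) ≤ (1 - p) ^ 2) h1
  have e : (1 - (1 - p) ^ 2)⁻¹ = 1 / (p * (2 - p)) := by
    rw [one_div]; congr 1; ring
  rwa [e] at this

lemma hasE (hp0 : 0 < p) (hp1 : p < 1) (hx0 : ∀ k, 0 < x k) (hH : Hyp m x p r h0) (n : ℕ)
    (hc : max (x n) h0 < x (n + m)) (h : ℝ) :
    HasSum (fun l : ℕ => ((1 - p) ^ 2) ^ l * (p * (SS x (n + m + l * m) + h) +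
      p * (1 - p) * (SS x (n + m + l * m + 1) - h))) (AA m x p n + p / (2 - p) * h) := by
  have h1 := hasA hp0 hp1 hx0 hH n hc
  have h2 := (hasGeo hp0 hp1).mul_left (p ^ 2 * h)
  have h3 := h1.add h2
  have e : p ^ 2 * h * (1 / (p * (2 - p))) = p / (2 - p) * h := by
    have : (2 - p) ≠ 0 := by linarith
    field_simp
  rw [e] at h3
  refine h3.congr_fun ?_ |> fun h => h
  intro l
  ring

lemma F1 (hp0 : 0 < p) (hp1 : p < 1) (hx0 : ∀ k, 0 < x k) (hH : Hyp m x p r h0) (n : ℕ)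
    (hc : max (x n) h0 < x (n + m)) (h : ℝ) (h1 : max (x n) h0 < h) (h2 : h < x (n + m)) :
    AA m x p n ≤ (r - p / (2 - p)) * h := by
  have hs := hasE hp0 hp1 hx0 hH n hc h
  have := le_of_tendsto' hs.tendsto_sum_nat (fun L => hH n h
    (lt_of_le_of_lt (le_max_left _ _) h1) h2 ((le_max_right _ _).trans h1.le) L)
  linarith

lemma F1' (hp0 : 0 < p) (hp1 : p < 1) (hx0 : ∀ k, 0 < x k) (hH : Hyp m x p r h0) (n : ℕ)
    (hc : max (x n) h0 < x (n + m)) : AA m x p n ≤ (r - p / (2 - p)) * max (x n) h0 := by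
  set κ := r - p / (2 - p) with hκ
  set c := max (x n) h0 with hcd
  apply le_of_forall_pos_le_add
  intro t ht
  set η := min ((x (n + m) - c) / 2) (t / (|κ| + 1)) with hη
  have hη0 : 0 < η := by
    apply lt_min
    · linarith
    · positivity
  have h1 := F1 hp0 hp1 hx0 hH n hc (c + η) (by linarith) (by
    have : η ≤ (x (n + m) - c) / 2 := min_le_left _ _
    linarith)
  have h2 : κ * η ≤ t := by
    have g1 : η ≤ t / (|κ| + 1) := min_le_right _ _
    rw [le_div_iff₀ (by positivity)] at g1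
    have g2 := le_abs_self κ
    nlinarith
  calc AA m x p n ≤ κ * (c + η) := h1
    _ = κ * c + κ * η := by ring
    _ ≤ κ * c + t := by linarith

lemma hasY (hp0 : 0 < p) (hp1 : p < 1) (hx0 : ∀ k, 0 < x k) (hH : Hyp m x p r h0) (n : ℕ)
    (hc : max (x n) h0 < x (n + m)) (hm : 0 < m) :
    HasSum (fun l : ℕ => ((1 - p) ^ 2) ^ l * (p * (2 - p) * SS x (n + l * m + 1)))
      (YY m x p n) := by
  apply Summable.hasSum
  apply Summable.of_nonneg_of_le _ _ (hasA hp0 hp1 hx0 hH n hc).summable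
  · intro l
    have h1 := SS_nonneg hx0 (n + l * m + 1)
    have : 0 < 2 - p := by linarith
    positivity
  · intro l
    apply mul_le_mul_of_nonneg_left _ (by positivity)
    have h1 : SS x (n + l * m + 1) ≤ SS x (n + m + l * m) := SS_mono hx0 (by omega)
    have h2 : SS x (n + m + l * m) ≤ SS x (n + m + l * m + 1) := SS_mono hx0 (by omega)
    have h3 : 0 ≤ SS x (n + m + l * m) - SS x (n + l * m + 1) := by linarith
    have h4 : 0 ≤ SS x (n + m + l * m + 1) - SS x (n + l * m + 1) := by linarith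
    have h5 : 0 < 1 - p := by linarith
    have h6 : 0 ≤ p * (SS x (n + m + l * m) - SS x (n + l * m + 1)) := mul_nonneg hp0.le h3
    have h7 : 0 ≤ p * (1 - p) * (SS x (n + m + l * m + 1) - SS x (n + l * m + 1)) := by
      positivity
    linarith

lemma F2 (hp0 : 0 < p) (hp1 : p < 1) (hx0 : ∀ k, 0 < x k) (hx : ∀ k, x k < x (k + m))
    (hH : Hyp m x p r h0) (n : ℕ) (hc : max (x n) h0 < x (n + m)) (hm : 0 < m) :
    YY m x p n + 2 * (1 - p) / (2 - p) * x n ≤ AA m x p n := by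
  have h1 := hasY hp0 hp1 hx0 hH n hc hm
  have h2 := (hasGeo hp0 hp1).mul_left (2 * p * (1 - p) * x n)
  have e : 2 * p * (1 - p) * x n * (1 / (p * (2 - p))) = 2 * (1 - p) / (2 - p) * x n := by
    have : (2 - p) ≠ 0 := by linarith
    field_simp
  rw [e] at h2
  refine hasSum_le ?_ (h1.add h2) (hasA hp0 hp1 hx0 hH n hc)
  intro l
  have g1 : SS x (n + l * m + 1) ≤ SS x (n + m + l * m) := SS_mono hx0 (by omega)
  have g2 := SS_succ x (n + m + l * m)
  have g3 : x n ≤ x (n + m + l * m) := by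
    have := mono_res hx n (l + 1)
    rw [show n + (l + 1) * m = n + m + l * m by ring] at this
    exact this
  have g5 : 0 < 1 - p := by linarith
  have g6 : 0 ≤ ((1 - p) ^ 2) ^ l := by positivity
  have g7 : p * (2 - p) * SS x (n + l * m + 1) + 2 * p * (1 - p) * x n ≤
      p * SS x (n + m + l * m) + p * (1 - p) * SS x (n + m + l * m + 1) := by
    rw [g2]
    have k1 : 0 ≤ p * (2 - p) * (SS x (n + m + l * m) - SS x (n + l * m + 1)) :=
      mul_nonneg (mul_nonneg hp0.le (by linarith)) (by linarith)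
    have k2 : 0 ≤ p * (1 - p) * (x (n + m + l * m) - x n) :=
      mul_nonneg (mul_nonneg hp0.le g5.le) (by linarith)
    linarith
  calc _ = ((1 - p) ^ 2) ^ l * (p * (2 - p) * SS x (n + l * m + 1) + 2 * p * (1 - p) * x n) := by
        ring
    _ ≤ _ := mul_le_mul_of_nonneg_left g7 g6

/-- lower bound for the later blocks -/
lemma F5 (hp0 : 0 < p) (hp1 : p < 1) (hx0 : ∀ k, 0 < x k) (hx : ∀ k, x k < x (k + m))
    (hH : Hyp m x p r h0) (n : ℕ) (hc : max (x n) h0 < x (n + m)) (hm : 0 < m) {h : ℝ} :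
    (p * (SS x (n + m) + h) + p * (1 - p) * (SS x (n + m + 1) - h)) +
      (1 - p) ^ 2 * (SS x (n + m + 1) + h + 2 * (1 - p) / (2 - p) * (x (n + m) - h)) ≤
      AA m x p n + p / (2 - p) * h := by
  have h1 := hasE hp0 hp1 hx0 hH n hc h
  have h2 := (hasSum_nat_add_iff' 1).2 h1
  simp only [Finset.sum_range_one, pow_zero, one_mul, zero_mul, add_zero] at h2
  have h3 := (hasGeo hp0 hp1).mul_left ((1 - p) ^ 2 * (p * (2 - p) * (SS x (n + m + 1) + h) +
    2 * p * (1 - p) * (x (n + m) - h)))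
  have e : (1 - p) ^ 2 * (p * (2 - p) * (SS x (n + m + 1) + h) +
      2 * p * (1 - p) * (x (n + m) - h)) * (1 / (p * (2 - p))) =
      (1 - p) ^ 2 * (SS x (n + m + 1) + h + 2 * (1 - p) / (2 - p) * (x (n + m) - h)) := by
    have : (2 - p) ≠ 0 := by linarith
    field_simp
  rw [e] at h3
  have h4 := hasSum_le (fun l => ?_) h3 h2
  · linarith
  · have g1 : SS x (n + m + 1) ≤ SS x (n + m + (l + 1) * m) := by
      apply SS_mono hx0
      have : 1 * m ≤ (l + 1) * m := Nat.mul_le_mul_right m (by omega)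
      omega
    have g2 := SS_succ x (n + m + (l + 1) * m)
    have g3 : x (n + m) ≤ x (n + m + (l + 1) * m) := mono_res hx (n + m) (l + 1)
    have g5 : 0 < 1 - p := by linarith
    have g6 : 0 ≤ ((1 - p) ^ 2) ^ l := by positivity
    have g7 : p * (2 - p) * (SS x (n + m + 1) + h) + 2 * p * (1 - p) * (x (n + m) - h) ≤
        p * (SS x (n + m + (l + 1) * m) + h) +
          p * (1 - p) * (SS x (n + m + (l + 1) * m + 1) - h) := by
      rw [g2]
      have k1 : 0 ≤ p * (2 - p) * (SS x (n + m + (l + 1) * m) - SS x (n + m + 1)) :=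
        mul_nonneg (mul_nonneg hp0.le (by linarith)) (by linarith)
      have k2 : 0 ≤ p * (1 - p) * (x (n + m + (l + 1) * m) - x (n + m)) :=
        mul_nonneg (mul_nonneg hp0.le g5.le) (by linarith)
      nlinarith
    calc _ = ((1 - p) ^ 2) ^ l * (1 - p) ^ 2 * (p * (2 - p) * (SS x (n + m + 1) + h) +
          2 * p * (1 - p) * (x (n + m) - h)) := by ring
      _ ≤ ((1 - p) ^ 2) ^ l * (1 - p) ^ 2 * _ :=
          mul_le_mul_of_nonneg_left g7 (by positivity)
      _ = _ := by rw [pow_succ ((1 - p) ^ 2) l]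

variable {j : ℕ} {d : ℝ}

lemma zig_skip (hε : 0 < ε) (hx0 : ∀ k, 0 < x k) (hx : ∀ k, x k < x (k + m)) (n : ℕ)
    (h : n % m ≠ j ∨ x (n + m) < d) :
    VV p (ρ1 m) (y1 m x ε) j d (4 * (n + 1)) = VV p (ρ1 m) (y1 m x ε) j d (4 * n) ∧
    surv p (ρ1 m) (y1 m x ε) j d (4 * (n + 1)) = surv p (ρ1 m) (y1 m x ε) j d (4 * n) := by
  obtain ⟨d0, d1, d2, d3⟩ := det_none (p := p) hε hx0 hx n h
  obtain ⟨b1, b2⟩ := block hε hx0 hx n d0 d1 d2 d3
  constructor
  · rw [b1]; ring
  · rw [b2]; ring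

lemma zig_late (hε : 0 < ε) (hx0 : ∀ k, 0 < x k) (hx : ∀ k, x k < x (k + m)) (hd : 0 < d) (n : ℕ)
    (hj : n % m = j) (h : d < x n) :
    VV p (ρ1 m) (y1 m x ε) j d (4 * (n + 1)) = VV p (ρ1 m) (y1 m x ε) j d (4 * n) +
      surv p (ρ1 m) (y1 m x ε) j d (4 * n) * (p * (legTime (y1 m x ε) (4 * n) + d) +
        p * (1 - p) * (legTime (y1 m x ε) (4 * (n + 1)) - d)) ∧
    surv p (ρ1 m) (y1 m x ε) j d (4 * (n + 1)) =
      surv p (ρ1 m) (y1 m x ε) j d (4 * n) * (1 - p) ^ 2 := by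
  obtain ⟨d0, d1, d2, d3⟩ := det_late (p := p) hε hx0 hx hd n hj h
  obtain ⟨b1, b2⟩ := block hε hx0 hx n d0 d1 d2 d3
  have l4 := (leg_step hε hx0 hx n).2.2.2
  have hX := hx n
  constructor
  · rw [b1, l4, abs_of_pos hd, abs_of_neg (by linarith : d - x (n + m) < 0)]; ring
  · rw [b2]; ring

lemma zig_tail (hm : 0 < m) (hε : 0 < ε) (hx0 : ∀ k, 0 < x k) (hx : ∀ k, x k < x (k + m))
    (hd : 0 < d) (n : ℕ) (hj : n % m = j) (h : d < x (n + m)) (L : ℕ) :
    VV p (ρ1 m) (y1 m x ε) j d (4 * (n + (L + 1) * m)) =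
      VV p (ρ1 m) (y1 m x ε) j d (4 * (n + 1)) +
      surv p (ρ1 m) (y1 m x ε) j d (4 * (n + 1)) * ∑ l ∈ range L, ((1 - p) ^ 2) ^ l *
        (p * (legTime (y1 m x ε) (4 * (n + (l + 1) * m)) + d) +
        p * (1 - p) * (legTime (y1 m x ε) (4 * (n + (l + 1) * m + 1)) - d)) ∧
    surv p (ρ1 m) (y1 m x ε) j d (4 * (n + (L + 1) * m)) =
      surv p (ρ1 m) (y1 m x ε) j d (4 * (n + 1)) * ((1 - p) ^ 2) ^ L := by
  have hsk : ∀ N, N % m = j →
      VV p (ρ1 m) (y1 m x ε) j d (4 * (N + m)) = VV p (ρ1 m) (y1 m x ε) j d (4 * (N + 1)) ∧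
      surv p (ρ1 m) (y1 m x ε) j d (4 * (N + m)) =
        surv p (ρ1 m) (y1 m x ε) j d (4 * (N + 1)) := by
    intro N hN
    exact ⟨skip_range (fun k => VV p (ρ1 m) (y1 m x ε) j d (4 * k)) hm
      (fun k _ hk => (zig_skip hε hx0 hx k (Or.inl (by rw [hN] at hk; exact hk))).1),
      skip_range (fun k => surv p (ρ1 m) (y1 m x ε) j d (4 * k)) hm
      (fun k _ hk => (zig_skip hε hx0 hx k (Or.inl (by rw [hN] at hk; exact hk))).2)⟩
  induction L with
  | zero =>
    obtain ⟨s1, s2⟩ := hsk n hj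
    simp only [zero_add, one_mul, Finset.range_zero, Finset.sum_empty, mul_zero, add_zero,
      pow_zero, mul_one]
    exact ⟨s1, s2⟩
  | succ L ih =>
    obtain ⟨i1, i2⟩ := ih
    have hN : (n + (L + 1) * m) % m = j := by rw [Nat.add_mul_mod_self_right]; exact hj
    obtain ⟨s1, s2⟩ := hsk _ hN
    have hlt : d < x (n + (L + 1) * m) := by
      have := mono_res hx (n + m) L
      rw [show n + m + L * m = n + (L + 1) * m by ring] at this
      linarith
    obtain ⟨g1, g2⟩ := zig_late (p := p) hε hx0 hx hd _ hN hlt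
    rw [show n + (L + 1 + 1) * m = n + (L + 1) * m + m by ring]
    constructor
    · rw [s1, g1, i1, i2, Finset.sum_range_succ]; ring
    · rw [s2, g2, i2, pow_succ ((1 - p) ^ 2) L]; ring

/-- times of the later blocks -/
lemma tail_le (hm : 0 < m) (hp0 : 0 < p) (hp1 : p < 1) (hε : 0 < ε) (hx0 : ∀ k, 0 < x k)
    (hx : ∀ k, x k < x (k + m)) (hH : Hyp m x p r h0) (n : ℕ) (hc : max (x n) h0 < x (n + m))
    (hd : 0 < d) (h : d ≤ x (n + m)) (L : ℕ) :
    (1 - p) ^ 2 * ∑ l ∈ range L, ((1 - p) ^ 2) ^ l *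
        (p * (legTime (y1 m x ε) (4 * (n + (l + 1) * m)) + d) +
        p * (1 - p) * (legTime (y1 m x ε) (4 * (n + (l + 1) * m + 1)) - d)) ≤
      AA m x p n + p / (2 - p) * d + ε * YY m x p n -
        (p * (SS x (n + m) + d) + p * (1 - p) * (SS x (n + m + 1) - d) +
          ε * (p * (2 - p) * SS x (n + 1))) := by
  have h1 := (hasE hp0 hp1 hx0 hH n hc d).add ((hasY hp0 hp1 hx0 hH n hc hm).mul_left ε)
  have h2 := (hasSum_nat_add_iff' 1).2 h1
  simp only [Finset.sum_range_one, pow_zero, one_mul, zero_mul, add_zero] at h2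
  have hq : 0 < 1 - p := by linarith
  have hq2 : 0 < 2 - p := by linarith
  have hterm : ∀ l : ℕ, (1 - p) ^ 2 * (((1 - p) ^ 2) ^ l *
        (p * (legTime (y1 m x ε) (4 * (n + (l + 1) * m)) + d) +
        p * (1 - p) * (legTime (y1 m x ε) (4 * (n + (l + 1) * m + 1)) - d))) ≤
      ((1 - p) ^ 2) ^ (l + 1) * (p * (SS x (n + m + (l + 1) * m) + d) +
          p * (1 - p) * (SS x (n + m + (l + 1) * m + 1) - d)) +
        ε * (((1 - p) ^ 2) ^ (l + 1) * (p * (2 - p) * SS x (n + (l + 1) * m + 1))) := by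
    intro l
    have t1 := time_le hε hx0 hx (n + (l + 1) * m)
    have t2 := time_le hε hx0 hx (n + (l + 1) * m + 1)
    have w1 := W_le (m := m) (x := x) (ε := ε) (n + (l + 1) * m)
    have w2 := W_le (m := m) (x := x) (ε := ε) (n + (l + 1) * m + 1)
    rw [show n + (l + 1) * m + m = n + m + (l + 1) * m by ring] at t1
    rw [show n + (l + 1) * m + 1 + m = n + m + (l + 1) * m + 1 by ring] at t2
    have m1 : SS x (n + (l + 1) * m) ≤ SS x (n + (l + 1) * m + 1) := SS_mono hx0 (by omega)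
    have m1' := mul_le_mul_of_nonneg_left m1 hε.le
    have k1 : legTime (y1 m x ε) (4 * (n + (l + 1) * m)) ≤
        SS x (n + m + (l + 1) * m) + ε * SS x (n + (l + 1) * m + 1) := by linarith
    have k2 : legTime (y1 m x ε) (4 * (n + (l + 1) * m + 1)) ≤
        SS x (n + m + (l + 1) * m + 1) + ε * SS x (n + (l + 1) * m + 1) := by linarith
    have k3 := mul_le_mul_of_nonneg_left k1 hp0.le
    have k4 := mul_le_mul_of_nonneg_left k2 (mul_nonneg hp0.le hq.le)
    have k5 : p * (legTime (y1 m x ε) (4 * (n + (l + 1) * m)) + d) +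
        p * (1 - p) * (legTime (y1 m x ε) (4 * (n + (l + 1) * m + 1)) - d) ≤
        p * (SS x (n + m + (l + 1) * m) + d) +
          p * (1 - p) * (SS x (n + m + (l + 1) * m + 1) - d) +
        ε * (p * (2 - p) * SS x (n + (l + 1) * m + 1)) := by
      nlinarith
    calc _ = ((1 - p) ^ 2) ^ (l + 1) * (p * (legTime (y1 m x ε) (4 * (n + (l + 1) * m)) + d) +
          p * (1 - p) * (legTime (y1 m x ε) (4 * (n + (l + 1) * m + 1)) - d)) := by
          rw [pow_succ ((1 - p) ^ 2) l]; ring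
      _ ≤ ((1 - p) ^ 2) ^ (l + 1) * _ := mul_le_mul_of_nonneg_left k5 (by positivity)
      _ = _ := by ring
  rw [Finset.mul_sum]
  refine (Finset.sum_le_sum fun l _ => hterm l).trans ?_
  refine (sum_le_hasSum (range L) ?_ h2).trans (le_of_eq (by ring))
  intro l _
  have s1 := SS_nonneg hx0 (n + (l + 1) * m + 1)
  have s2 := SS_nonneg hx0 (n + m + (l + 1) * m)
  have s3 := SS_succ x (n + m + (l + 1) * m)
  have s4 : x (n + m) ≤ x (n + m + (l + 1) * m) := mono_res hx (n + m) (l + 1)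
  have s5 := hx0 (n + m)
  have k1 : 0 ≤ p * (SS x (n + m + (l + 1) * m) + d) +
      p * (1 - p) * (SS x (n + m + (l + 1) * m + 1) - d) := by
    rw [s3]
    have a1 : 0 ≤ p * (2 - p) * SS x (n + m + (l + 1) * m) := by positivity
    have a2 : 0 ≤ p * (1 - p) * (2 * x (n + m + (l + 1) * m) - 2 * d) :=
      mul_nonneg (by positivity) (by linarith)
    have a3 : 0 ≤ p * d * (1 + (1 - p)) := by positivity
    nlinarith
  have k2 : 0 ≤ ((1 - p) ^ 2) ^ (l + 1) * (p * (2 - p) * SS x (n + (l + 1) * m + 1)) := by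
    positivity
  have k3 : 0 ≤ ((1 - p) ^ 2) ^ (l + 1) := by positivity
  have := mul_nonneg k3 k1
  have := mul_nonneg hε.le k2
  linarith

lemma surv_zero {ρ : ℕ → ℕ} {y : ℕ → ℝ} {k : ℕ} (h : surv p ρ y j d k = 0) (i : ℕ) :
    surv p ρ y j d (k + i) = 0 ∧ VV p ρ y j d (k + i) = VV p ρ y j d k := by
  induction i with
  | zero => exact ⟨h, rfl⟩
  | succ i ih =>
    obtain ⟨i1, i2⟩ := ih
    rw [← add_assoc, surv_succ, VV_succ, i1, i2]
    constructor <;> ring

/-- the index of the first excursion reaching the treasure -/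
lemma locate (hm : 0 < m) (hε : 0 < ε) (hx0 : ∀ k, 0 < x k) (hx : ∀ k, x k < x (k + m))
    (hxt : ∀ k, Tendsto (fun l => x (k + l * m)) atTop atTop) (hx1 : ∀ k < m, x k < 1)
    (hj : j < m) (hd : 1 ≤ d) :
    ∃ n, n % m = j ∧ x n < d ∧ d ≤ x (n + m) ∧ VV p (ρ1 m) (y1 m x ε) j d (4 * n) = 0 ∧
      surv p (ρ1 m) (y1 m x ε) j d (4 * n) = 1 := by
  classical
  have hex : ∃ n, n % m = j ∧ d ≤ x (n + m) := by
    obtain ⟨l, hl⟩ := ((hxt (j + m)).eventually_ge_atTop d).exists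
    refine ⟨j + l * m, ?_, ?_⟩
    · rw [Nat.add_mul_mod_self_right, Nat.mod_eq_of_lt hj]
    · rw [show j + l * m + m = j + m + l * m by ring]; exact hl
  obtain ⟨h1, h2⟩ := Nat.find_spec hex
  have hmin := fun k (hk : k < Nat.find hex) => Nat.find_min hex hk
  set n := Nat.find hex with hn
  refine ⟨n, h1, ?_, h2, ?_⟩
  · rcases Nat.lt_or_ge n m with h3 | h3
    · exact lt_of_lt_of_le (hx1 n h3) hd
    · have h4 := hmin (n - m) (by omega)
      rw [not_and] at h4
      have h5 : (n - m) % m = j := by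
        rw [← h1]
        conv_rhs => rw [show n = n - m + m by omega, Nat.add_mod_right]
      have h6 := h4 h5
      rw [Nat.sub_add_cancel h3] at h6
      exact not_le.1 h6
  · have : ∀ k, k ≤ n → VV p (ρ1 m) (y1 m x ε) j d (4 * k) = 0 ∧
        surv p (ρ1 m) (y1 m x ε) j d (4 * k) = 1 := by
      intro k
      induction k with
      | zero => intro _; simp [VV, surv]
      | succ k ih =>
        intro hk
        have h3 := hmin k (by omega)
        have h4 : k % m ≠ j ∨ x (k + m) < d := by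
          by_cases h5 : k % m = j
          · right
            rw [not_and] at h3
            exact not_le.1 (h3 h5)
          · left; exact h5
        obtain ⟨s1, s2⟩ := zig_skip (p := p) hε hx0 hx k h4
        obtain ⟨i1, i2⟩ := ih (by omega)
        exact ⟨s1.trans i1, s2.trans i2⟩
    exact this n le_rfl

/-- real inequality: slack of the farther points -/
lemma R3 {p A B s d X c : ℝ} (hp1 : p < 1) (hc : 0 ≤ c) (hdX : d ≤ X)
    (f5 : (p * (s + d) + p * (1 - p) * (s + 2 * X - d)) +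
      (1 - p) ^ 2 * (s + 2 * X + d + c * (X - d)) ≤ A + B * d) :
    s + d + 2 * (1 - p) ^ 2 * d ≤ A + B * d := by
  have hq : 0 < 1 - p := by linarith
  have k1 : 0 ≤ (2 * (1 - p) + (1 - p) ^ 2 * c) * (X - d) :=
    mul_nonneg (by positivity) (by linarith)
  have e : (p * (s + d) + p * (1 - p) * (s + 2 * X - d)) +
      (1 - p) ^ 2 * (s + 2 * X + d + c * (X - d)) =
      s + d + 2 * (1 - p) ^ 2 * d + (2 * (1 - p) + (1 - p) ^ 2 * c) * (X - d) := by ring
  linarith

/-- real inequality: certain detection -/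
lemma Rcert {p A B r s e d ε δ : ℝ} (hp1 : p < 1) (hd : 0 < d) (hε : 0 < ε)
    (hB : 0 < B) (hes : e ≤ s) (hsA : s ≤ A) (hAd : A ≤ (r - B) * d)
    (g3 : s + d + 2 * (1 - p) ^ 2 * d ≤ A + B * d)
    (hεr : 2 * ε * r ≤ p * (1 - p) ^ 2 * (2 - p)) (hδ4 : δ ≤ (1 - p) ^ 2) :
    s + ε * e + d ≤ (r - δ) * d := by
  have hq : 0 < (1 - p) ^ 2 := by
    have : 0 < 1 - p := by linarith
    positivity
  have g1 : ε * e ≤ ε * A := mul_le_mul_of_nonneg_left (hes.trans hsA) hε.le
  have g2 : ε * A ≤ ε * ((r - B) * d) := mul_le_mul_of_nonneg_left hAd hε.le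
  have g4 : ε * r ≤ (1 - p) ^ 2 / 2 := by
    have h1 : p * (2 - p) ≤ 1 := by nlinarith
    have h2 : p * (1 - p) ^ 2 * (2 - p) ≤ (1 - p) ^ 2 * 1 := by
      calc p * (1 - p) ^ 2 * (2 - p) = (1 - p) ^ 2 * (p * (2 - p)) := by ring
        _ ≤ _ := mul_le_mul_of_nonneg_left h1 hq.le
    linarith
  have g5 : ε * ((r - B) * d) ≤ (1 - p) ^ 2 / 2 * d := by
    have h1 : ε * (r - B) ≤ (1 - p) ^ 2 / 2 := by
      have := mul_pos hε hB
      linarith
    calc ε * ((r - B) * d) = ε * (r - B) * d := by ring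
      _ ≤ _ := mul_le_mul_of_nonneg_right h1 hd.le
  have g7 : δ * d ≤ (1 - p) ^ 2 * d := mul_le_mul_of_nonneg_right hδ4 hd.le
  have g8 : 0 < (1 - p) ^ 2 * d := by positivity
  linarith

/-- real inequality: the zone -/
lemma Rzone {p A B Y r s e d a z X σ T ε δ : ℝ} (hp0 : 0 < p) (hp1 : p < 1) (hd : 0 < d)
    (hε : 0 < ε) (hB : 0 < B) (had : a < d) (haz : a < z)
    (hes : e ≤ s) (hsA : s ≤ A) (hYA : Y ≤ A) (hAd : A ≤ (r - B) * d)
    (hσ : σ + 2 * (z - a) ≤ s + ε * e)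
    (htl : (1 - p) ^ 2 * T ≤ A + B * d + ε * Y -
      (p * (s + d) + p * (1 - p) * (s + 2 * X - d) + ε * (p * (2 - p) * e)))
    (g3 : s + d + 2 * (1 - p) ^ 2 * d ≤ A + B * d)
    (hεr : 2 * ε * r ≤ p * (1 - p) ^ 2 * (2 - p)) (hδ3 : δ ≤ p * (1 - p) ^ 2 * (2 - p)) :
    p * (σ + d) + (1 - p) * p * (σ + z + (z - d)) +
      (1 - p) * (1 - p) * p * (σ + 2 * z - a + (d - a)) +
      (1 - p) * (1 - p) * (1 - p) * p * (σ + 2 * z - 2 * a + X + (X - d)) +
      (1 - p) * (1 - p) * (1 - p) * (1 - p) * T ≤ (r - δ) * d := by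
  have hq : 0 < 1 - p := by linarith
  have hq2 : 0 < 2 - p := by linarith
  have k0 := mul_le_mul_of_nonneg_left (show σ + d ≤ s + ε * e + d by linarith) hp0.le
  have k1 := mul_le_mul_of_nonneg_left (show σ + z + (z - d) ≤ s + ε * e + d by linarith)
    (mul_pos hq hp0).le
  have k2 := mul_le_mul_of_nonneg_left
    (show σ + 2 * z - a + (d - a) ≤ s + ε * e + d by linarith)
    (mul_pos (mul_pos hq hq) hp0).le
  have k3 := mul_le_mul_of_nonneg_left
    (show σ + 2 * z - 2 * a + X + (X - d) ≤ s + ε * e + 2 * X - d by linarith)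
    (mul_pos (mul_pos (mul_pos hq hq) hq) hp0).le
  have k4 := mul_le_mul_of_nonneg_left htl (sq_nonneg (1 - p))
  have e1 : p * (s + ε * e + d) + (1 - p) * p * (s + ε * e + d) +
      (1 - p) * (1 - p) * p * (s + ε * e + d) +
      (1 - p) * (1 - p) * (1 - p) * p * (s + ε * e + 2 * X - d) +
      (1 - p) ^ 2 * (A + B * d + ε * Y -
      (p * (s + d) + p * (1 - p) * (s + 2 * X - d) + ε * (p * (2 - p) * e))) =
      p * (2 - p) * (s + d) + (1 - p) ^ 2 * (A + B * d) +
        ε * (p * (2 - p) * e + (1 - p) ^ 2 * Y) := by ring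
  have e2 : (1 - p) * (1 - p) * (1 - p) * (1 - p) * T = (1 - p) ^ 2 * ((1 - p) ^ 2 * T) := by ring
  have k5 : ε * (p * (2 - p) * e + (1 - p) ^ 2 * Y) ≤ ε * A := by
    apply mul_le_mul_of_nonneg_left _ hε.le
    have h1 : p * (2 - p) * e ≤ p * (2 - p) * A :=
      mul_le_mul_of_nonneg_left (hes.trans hsA) (mul_pos hp0 hq2).le
    have h2 : (1 - p) ^ 2 * Y ≤ (1 - p) ^ 2 * A := mul_le_mul_of_nonneg_left hYA (sq_nonneg _)
    have h3 : p * (2 - p) * A + (1 - p) ^ 2 * A = A := by ring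
    linarith
  have k6 : ε * A ≤ ε * ((r - B) * d) := mul_le_mul_of_nonneg_left hAd hε.le
  have k7 : ε * ((r - B) * d) ≤ p * (1 - p) ^ 2 * (2 - p) / 2 * d := by
    have h1 : ε * (r - B) ≤ p * (1 - p) ^ 2 * (2 - p) / 2 := by
      have := mul_pos hε hB
      linarith
    calc ε * ((r - B) * d) = ε * (r - B) * d := by ring
      _ ≤ _ := mul_le_mul_of_nonneg_right h1 hd.le
  have k8 : p * (2 - p) * (s + d + 2 * (1 - p) ^ 2 * d) ≤ p * (2 - p) * (A + B * d) :=
    mul_le_mul_of_nonneg_left g3 (mul_pos hp0 hq2).le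
  have e3 : p * (2 - p) * (A + B * d) + (1 - p) ^ 2 * (A + B * d) = A + B * d := by ring
  have k9 : δ * d ≤ p * (1 - p) ^ 2 * (2 - p) * d := mul_le_mul_of_nonneg_right hδ3 hd.le
  have k10 : 0 < p * (1 - p) ^ 2 * (2 - p) * d := by positivity
  rw [e2]
  linarith

/-- real inequality: beyond the zone -/
lemma Rfar {p A B Y r s e d a z X σ T ε δ c1 h0 : ℝ} (hp0 : 0 < p) (hp1 : p < 1) (hd : 1 ≤ d)
    (hε : 0 < ε) (hε1 : ε ≤ 1) (ha : 0 < a) (hzd : (1 + ε) * a ≤ d)
    (hc1 : 0 < c1) (hY0 : 0 ≤ Y) (f2 : Y + c1 * a ≤ A) (f1 : A ≤ (r - B) * max a h0)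
    (hh1 : h0 ≤ 1 / 4) (hκ : 2 ≤ r - B)
    (hσ : σ + 2 * (z - a) ≤ s + ε * e)
    (htl : (1 - p) ^ 2 * T ≤ A + B * d + ε * Y -
      (p * (s + d) + p * (1 - p) * (s + 2 * X - d) + ε * (p * (2 - p) * e)))
    (hδ1 : δ ≤ ε * c1 / (1 + ε)) (hδ2 : δ ≤ 1) :
    (1 - 0) * (1 - 0) * p * (σ + 2 * z - a + (d - a)) +
      (1 - 0) * (1 - 0) * (1 - p) * p * (σ + 2 * z - 2 * a + X + (X - d)) +
      (1 - 0) * (1 - 0) * (1 - p) * (1 - p) * T ≤ (r - δ) * d := by
  have hq : 0 < 1 - p := by linarith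
  have k2 := mul_le_mul_of_nonneg_left
    (show σ + 2 * z - a + (d - a) ≤ s + ε * e + d by linarith) hp0.le
  have k3 := mul_le_mul_of_nonneg_left
    (show σ + 2 * z - 2 * a + X + (X - d) ≤ s + ε * e + 2 * X - d by linarith)
    (mul_pos hq hp0).le
  have e1 : p * (s + ε * e + d) + (1 - p) * p * (s + ε * e + 2 * X - d) +
      (A + B * d + ε * Y -
      (p * (s + d) + p * (1 - p) * (s + 2 * X - d) + ε * (p * (2 - p) * e))) =
      A + B * d + ε * Y := by ring
  have k4 : A + B * d + ε * Y ≤ (r - δ) * d := by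
    rcases le_total h0 a with hcase | hcase
    · rw [max_eq_left hcase] at f1
      have h1 : ε * Y ≤ ε * (A - c1 * a) := mul_le_mul_of_nonneg_left (by linarith) hε.le
      have h2 : (1 + ε) * A ≤ (1 + ε) * ((r - B) * a) :=
        mul_le_mul_of_nonneg_left f1 (by linarith)
      have hpos : 0 < 1 + ε := by linarith
      have h3 : c1 * a ≤ (r - B) * a := by linarith
      have h4 : c1 ≤ r - B := le_of_mul_le_mul_right h3 ha
      have h5 : 0 ≤ (r - B) - ε * c1 / (1 + ε) := by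
        have : ε * c1 / (1 + ε) ≤ c1 := by
          rw [div_le_iff₀ hpos]; linarith
        linarith
      have h6 : ((r - B) - ε * c1 / (1 + ε)) * ((1 + ε) * a) ≤
          ((r - B) - ε * c1 / (1 + ε)) * d := mul_le_mul_of_nonneg_left hzd h5
      have h7 : ((r - B) - ε * c1 / (1 + ε)) * ((1 + ε) * a) =
          (1 + ε) * ((r - B) * a) - ε * (c1 * a) := by
        field_simp
      have h8 : δ * d ≤ ε * c1 / (1 + ε) * d := mul_le_mul_of_nonneg_right hδ1 (by linarith)
      nlinarith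
    · rw [max_eq_right hcase] at f1
      have h1 : A ≤ (r - B) * (1 / 4) := f1.trans (mul_le_mul_of_nonneg_left hh1 (by linarith))
      have h2 : Y ≤ A := by
        have := mul_pos hc1 ha
        linarith
      have h3 : ε * Y ≤ 1 * A := mul_le_mul hε1 h2 hY0 (by norm_num)
      have h4 : (r - B) / 2 ≤ (r - B) / 2 * d := by
        have : 0 ≤ (r - B) / 2 * (d - 1) := mul_nonneg (by linarith) (by linarith)
        linarith
      have h5 : δ * d ≤ 1 * d := mul_le_mul_of_nonneg_right hδ2 (by linarith)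
      have h6 : 1 * d ≤ (r - B) / 2 * d := mul_le_mul_of_nonneg_right (by linarith) (by linarith)
      linarith
  have e2 : (1 - p) * (1 - p) * T = (1 - p) ^ 2 * T := by ring
  simp only [sub_zero, one_mul]
  rw [e2]
  linarith

/-- **The bound for the zigzag trajectory.** -/
theorem zig_bound (hm : 0 < m) (hp0 : 0 < p) (hp1 : p < 1) (hε : 0 < ε) (hε1 : ε ≤ 1)
    (hx0 : ∀ k, 0 < x k) (hx : ∀ k, x k < x (k + m))
    (hxt : ∀ k, Tendsto (fun l => x (k + l * m)) atTop atTop) (hx1 : ∀ k < m, x k < 1)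
    (hh1 : h0 ≤ 1 / 4) (hH : Hyp m x p r h0) (hκ : 2 ≤ r - p / (2 - p))
    (hεr : 2 * ε * r ≤ p * (1 - p) ^ 2 * (2 - p)) {δ : ℝ}
    (hδ1 : δ ≤ ε * (2 * (1 - p) / (2 - p)) / (1 + ε)) (hδ2 : δ ≤ 1)
    (hδ3 : δ ≤ p * (1 - p) ^ 2 * (2 - p)) (hδ4 : δ ≤ (1 - p) ^ 2)
    (hj : j < m) (hd : 1 ≤ d) :
    expTime p (ρ1 m) (y1 m x ε) j d ≤ ENNReal.ofReal ((r - δ) * d) := by
  have hd0 : 0 < d := by linarith
  have hq : 0 < 1 - p := by linarith
  have hq2 : 0 < 2 - p := by linarith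
  obtain ⟨n, hnj, hnd, hdX, hV0, hS0⟩ := locate (p := p) hm hε hx0 hx hxt hx1 hj hd
  have hc : max (x n) h0 < x (n + m) := max_lt (hx n) (by linarith)
  have f1 := F1' hp0 hp1 hx0 hH n hc
  have f2 := F2 hp0 hp1 hx0 hx hH n hc hm
  have f5 := F5 hp0 hp1 hx0 hx hH n hc hm (h := d)
  have f50 := F5 hp0 hp1 hx0 hx hH n hc hm (h := 0)
  have hxn := hx0 n
  have hmax : max (x n) h0 ≤ d := max_le hnd.le (by linarith)
  have hB0 : 0 < p / (2 - p) := by positivity
  have hAd : AA m x p n ≤ (r - p / (2 - p)) * d :=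
    f1.trans (mul_le_mul_of_nonneg_left hmax (by linarith))
  have hY0 : 0 ≤ YY m x p n := by
    unfold YY
    apply tsum_nonneg
    intro l
    have := SS_nonneg hx0 (n + l * m + 1)
    positivity
  have hc1 : 0 < 2 * (1 - p) / (2 - p) := by positivity
  have hYA : YY m x p n ≤ AA m x p n := by
    have := mul_pos hc1 hxn
    linarith
  have hz := zz_gt hε hx0 hx n
  have hzX := zz_le (m := m) (x := x) (ε := ε) n
  have hs1 : SS x (n + m + 1) = SS x (n + m) + 2 * x (n + m) := SS_succ x (n + m)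
  rw [hs1] at f5 f50
  have hse : SS x (n + 1) ≤ SS x (n + m) := SS_mono hx0 (by omega)
  have he0 : 0 ≤ SS x (n + 1) := SS_nonneg hx0 _
  have t0 : legTime (y1 m x ε) (4 * n) ≤ SS x (n + m) + W m x ε n := time_le hε hx0 hx n
  have w1 : W m x ε (n + 1) ≤ ε * SS x (n + 1) := W_le (n + 1)
  have w2 := W_succ (m := m) (x := x) (ε := ε) n
  have hσ : legTime (y1 m x ε) (4 * n) + 2 * (zz m x ε n - x n) ≤
      SS x (n + m) + ε * SS x (n + 1) := by linarith
  have hsA : SS x (n + m) ≤ AA m x p n := by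
    have := R3 hp1 hc1.le (hx0 (n + m)).le f50
    linarith
  have g3 := R3 hp1 hc1.le hdX f5
  -- certain detection
  have hcert : ∀ V1 : ℝ, VV p (ρ1 m) (y1 m x ε) j d (4 * (n + 1)) = V1 →
      surv p (ρ1 m) (y1 m x ε) j d (4 * (n + 1)) = 0 →
      V1 ≤ SS x (n + m) + ε * SS x (n + 1) + d →
      expTime p (ρ1 m) (y1 m x ε) j d ≤ ENNReal.ofReal ((r - δ) * d) := by
    intro V1 hV1 hS1 hle
    have hfin : V1 ≤ (r - δ) * d :=
      hle.trans (Rcert hp1 hd0 hε hB0 hse hsA hAd g3 hεr hδ4)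
    apply expTime_le hp0.le hp1.le
    · intro K
      obtain ⟨-, z2⟩ := surv_zero hS1 K
      calc VV p (ρ1 m) (y1 m x ε) j d K ≤ VV p (ρ1 m) (y1 m x ε) j d (4 * (n + 1) + K) :=
            VV_mono hp0.le hp1.le (by omega)
        _ = V1 := by rw [z2, hV1]
        _ ≤ _ := hfin
    · intro η hη
      exact ⟨4 * (n + 1), by rw [hS1]; exact hη⟩
  -- the other cases
  have hgen : ∀ V1 P : ℝ, VV p (ρ1 m) (y1 m x ε) j d (4 * (n + 1)) = V1 →
      surv p (ρ1 m) (y1 m x ε) j d (4 * (n + 1)) = P → 0 ≤ P → P ≤ 1 → d < x (n + m) →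
      (∀ L, V1 + P * ∑ l ∈ range L, ((1 - p) ^ 2) ^ l *
        (p * (legTime (y1 m x ε) (4 * (n + (l + 1) * m)) + d) +
        p * (1 - p) * (legTime (y1 m x ε) (4 * (n + (l + 1) * m + 1)) - d)) ≤ (r - δ) * d) →
      expTime p (ρ1 m) (y1 m x ε) j d ≤ ENNReal.ofReal ((r - δ) * d) := by
    intro V1 P hV1 hS1 hP0 hP1 hlt hL
    have htail := zig_tail (p := p) hm hε hx0 hx hd0 n hnj hlt
    apply expTime_le hp0.le hp1.le
    · intro K
      refine le_trans (VV_mono hp0.le hp1.le (?_ : K ≤ 4 * (n + (K + 1) * m))) ?_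
      · have : (K + 1) * 1 ≤ (K + 1) * m := Nat.mul_le_mul_left _ hm
        omega
      · rw [(htail K).1, hV1, hS1]
        exact hL K
    · intro η hη
      have hw1 : (1 - p) ^ 2 < 1 := pow_lt_one₀ hq.le (by linarith) (by norm_num)
      obtain ⟨L, hL'⟩ := exists_pow_lt_of_lt_one hη hw1
      refine ⟨4 * (n + (L + 1) * m), ?_⟩
      rw [(htail L).2, hS1]
      have h0' : 0 ≤ ((1 - p) ^ 2) ^ L := by positivity
      calc P * ((1 - p) ^ 2) ^ L ≤ 1 * ((1 - p) ^ 2) ^ L := mul_le_mul_of_nonneg_right hP1 h0'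
        _ = ((1 - p) ^ 2) ^ L := one_mul _
        _ < η := hL'
  have hq1 : 1 - p ≤ 1 := by linarith
  rcases lt_trichotomy d (zz m x ε n) with hcase | hcase | hcase
  · -- the zone
    have hlt : d < x (n + m) := lt_of_lt_of_le hcase hzX
    obtain ⟨d0, d1, d2, d3⟩ := det_zone (p := p) hε hx0 hx n hnj hnd hcase
    obtain ⟨b1, b2⟩ := block hε hx0 hx n d0 d1 d2 d3
    rw [hV0, hS0, abs_of_pos hd0, abs_of_neg (by linarith : d - zz m x ε n < 0),
      abs_of_pos (by linarith : 0 < d - x n), abs_of_neg (by linarith : d - x (n + m) < 0),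
      one_mul, zero_add, neg_sub, neg_sub] at b1
    rw [hS0, one_mul] at b2
    refine hgen _ _ b1 b2 (by positivity) (by
      have e : (1 - p) * (1 - p) * (1 - p) * (1 - p) = (1 - p) ^ 4 := by ring
      rw [e]
      exact pow_le_one₀ hq.le hq1) hlt ?_
    intro L
    have htl := tail_le hm hp0 hp1 hε hx0 hx hH n hc hd0 hlt.le L
    rw [hs1] at htl
    exact Rzone hp0 hp1 hd0 hε hB0 hnd hz hse hsA hYA hAd hσ htl g3 hεr hδ3
  · -- the new turning point
    have d0 := det_turn (p := p) hε hx0 hx n hnj hcase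
    obtain ⟨b1, b2⟩ := block (j := j) (d := d) (p := p) hε hx0 hx n d0 rfl rfl rfl
    rw [hV0, hS0, abs_of_pos hd0] at b1
    simp only [sub_self, zero_mul, one_mul, add_zero, zero_add] at b1
    refine hcert _ b1 (by rw [b2]; ring) ?_
    linarith
  · rcases eq_or_lt_of_le hdX with hX | hX
    · -- the treasure is at `x (n + m)`
      obtain ⟨d0, d1, d2⟩ := det_turn' (p := p) hε hx0 hx n hnj hX hcase
      obtain ⟨b1, b2⟩ := block (j := j) (d := d) (p := p) hε hx0 hx n d0 d1 d2 rfl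
      rw [hV0, hS0, abs_of_pos (by linarith : 0 < d - x n)] at b1
      simp only [sub_self, sub_zero, zero_mul, mul_zero, one_mul, mul_one, add_zero,
        zero_add] at b1
      refine hcert _ b1 (by rw [b2]; ring) ?_
      linarith
    · -- beyond the zone
      have hza : (1 + ε) * x n ≤ d := by
        have : zz m x ε n = (1 + ε) * x n := by
          unfold zz
          apply min_eq_left
          by_contra hcon
          rw [not_le] at hcon
          have : zz m x ε n = x (n + m) := min_eq_right hcon.le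
          linarith
        linarith
      obtain ⟨d0, d1, d2, d3⟩ := det_far (p := p) hε hx0 hx n hnj hcase hX
      obtain ⟨b1, b2⟩ := block hε hx0 hx n d0 d1 d2 d3
      rw [hV0, hS0, abs_of_pos (by linarith : 0 < d - x n),
        abs_of_neg (by linarith : d - x (n + m) < 0), one_mul, zero_add, neg_sub] at b1
      simp only [zero_mul, mul_zero, zero_add] at b1
      rw [hS0, one_mul] at b2
      have e : (1 - 0) * (1 - 0) * (1 - p) * (1 - p) = (1 - p) ^ 2 := by ring
      refine hgen _ _ b1 b2 (by rw [e]; positivity)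
        (by rw [e]; exact pow_le_one₀ hq.le hq1) hX ?_
      intro L
      have htl := tail_le hm hp0 hp1 hε hx0 hx hH n hc hd0 hX.le L
      rw [hs1] at htl
      exact Rfar hp0 hp1 hd hε hε1 hxn hza hc1 hY0 f2 f1 hh1 hκ hσ htl hδ1 hδ2

end analysis

/-! ### From a cyclic monotone trajectory to a zigzag trajectory -/

section final

variable {m : ℕ} {p : ℝ}

lemma SS_scale (x : ℕ → ℝ) (s : ℝ) (k : ℕ) : SS (fun i => x i / s) k = SS x k / s := by
  unfold SS
  rw [← Finset.sum_div]; ring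

lemma hyp_of_cyc {ρ : ℕ → ℕ} {y x : ℕ → ℝ} {r s : ℝ} (hm : 0 < m) (hp0 : 0 < p) (hp1 : p < 1)
    (hr : 0 ≤ r) (hs : 0 < s) (hx0 : ∀ k, 0 < x k) (hx : ∀ k, x k < x (k + m))
    (hy : ∀ k, y (2 * k) = 0 ∧ y (2 * k + 1) = x k ∧ ρ (2 * k) = k % m ∧ ρ (2 * k + 1) = k % m)
    (hE : ∀ j < m, ∀ d : ℝ, 1 ≤ d → expTime p ρ y j d ≤ ENNReal.ofReal (r * d)) :
    Hyp m (fun i => x i / s) p r (1 / s) := by
  intro n h h1 h2 h3 L
  have g1 : x n < s * h := by
    have := (div_lt_iff₀ hs).1 h1; linarith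
  have g2 : s * h < x (n + m) := by
    have := (lt_div_iff₀ hs).1 h2; linarith
  have g3 : 1 ≤ s * h := by
    have := (div_le_iff₀ hs).1 h3; linarith
  obtain ⟨v1, -⟩ := cyc_VV (p := p) hm hx0 hx hy n g1 g2 L
  have v2 := (VV_le_expTime (ρ := ρ) (y := y) (j := n % m) (d := s * h) hp0.le hp1.le
    (2 * (n + m + L * m))).trans (hE (n % m) (Nat.mod_lt _ hm) (s * h) g3)
  rw [v1] at v2
  have hpos : 0 ≤ r * (s * h) := by positivity
  rw [ENNReal.ofReal_le_ofReal_iff hpos] at v2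
  have e : ∑ l ∈ range L, ((1 - p) ^ 2) ^ l * (p * (SS x (n + m + l * m) + s * h) +
        p * (1 - p) * (SS x (n + m + l * m + 1) - s * h)) =
      s * ∑ l ∈ range L, ((1 - p) ^ 2) ^ l * (p * (SS (fun i => x i / s) (n + m + l * m) + h) +
      p * (1 - p) * (SS (fun i => x i / s) (n + m + l * m + 1) - h)) := by
    rw [Finset.mul_sum]
    apply Finset.sum_congr rfl
    intro l _
    rw [SS_scale, SS_scale]
    field_simp
  rw [e] at v2
  have : s * (∑ l ∈ range L, ((1 - p) ^ 2) ^ l *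
      (p * (SS (fun i => x i / s) (n + m + l * m) + h) +
      p * (1 - p) * (SS (fun i => x i / s) (n + m + l * m + 1) - h))) ≤ s * (r * h) := by
    linarith
  exact le_of_mul_le_mul_left this hs

lemma kappa {x : ℕ → ℝ} {r h0 : ℝ} (hm : 0 < m) (hp0 : 0 < p) (hp1 : p < 1)
    (hx0 : ∀ k, 0 < x k) (hx : ∀ k, x k < x (k + m))
    (hxt : ∀ k, Tendsto (fun l => x (k + l * m)) atTop atTop) (hH : Hyp m x p r h0) :
    2 ≤ r - p / (2 - p) := by
  obtain ⟨l, hl⟩ := ((hxt 0).eventually_ge_atTop h0).exists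
  set n := 0 + l * m with hn
  have hc : max (x n) h0 < x (n + m) := by
    rw [max_eq_left hl]; exact hx n
  have f1 := F1' hp0 hp1 hx0 hH n hc
  rw [max_eq_left hl] at f1
  have f50 := F5 hp0 hp1 hx0 hx hH n hc hm (h := 0)
  have hs1 : SS x (n + m + 1) = SS x (n + m) + 2 * x (n + m) := SS_succ x (n + m)
  rw [hs1] at f50
  have hq : 0 < 1 - p := by linarith
  have hq2 : 0 < 2 - p := by linarith
  have hc1 : 0 < 2 * (1 - p) / (2 - p) := by positivity
  have hsA := R3 hp1 hc1.le (hx0 (n + m)).le f50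
  have h1 : SS x (n + 1) ≤ SS x (n + m) := SS_mono hx0 (by omega)
  have h2 := SS_succ x n
  have h3 := SS_nonneg hx0 n
  have h4 := hx0 n
  have h5 : 2 * x n ≤ (r - p / (2 - p)) * x n := by linarith
  exact le_of_mul_le_mul_right h5 h4

/-- Improvement of a cyclic monotone trajectory. -/
theorem improve (hm : 0 < m) (hp0 : 0 < p) (hp1 : p < 1) (rmax : ℝ) (hrm : 0 < rmax) :
    ∃ δ : ℝ, 0 < δ ∧ ∀ (ρ : ℕ → ℕ) (y : ℕ → ℝ) (r : ℝ), IsCyclicMonotone m ρ y → 0 ≤ r →
      r ≤ rmax → (∀ j < m, ∀ d : ℝ, 1 ≤ d → expTime p ρ y j d ≤ ENNReal.ofReal (r * d)) →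
      ∃ (ρ' : ℕ → ℕ) (y' : ℕ → ℝ), IsTrajectory m ρ' y' ∧
        ∀ j < m, ∀ d : ℝ, 1 ≤ d → expTime p ρ' y' j d ≤ ENNReal.ofReal ((r - δ) * d) := by
  have hq : 0 < 1 - p := by linarith
  have hq2 : 0 < 2 - p := by linarith
  set ε := min 1 (p * (1 - p) ^ 2 * (2 - p) / (2 * rmax)) with hε
  have hε0 : 0 < ε := lt_min one_pos (by positivity)
  have hε1 : ε ≤ 1 := min_le_left _ _
  have hε2 : ε ≤ p * (1 - p) ^ 2 * (2 - p) / (2 * rmax) := min_le_right _ _
  set δ := min (min (ε * (2 * (1 - p) / (2 - p)) / (1 + ε)) 1)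
    (min (p * (1 - p) ^ 2 * (2 - p)) ((1 - p) ^ 2)) with hδ
  have hδ0 : 0 < δ := lt_min (lt_min (by positivity) one_pos) (lt_min (by positivity)
    (by positivity))
  refine ⟨δ, hδ0, ?_⟩
  rintro ρ y r ⟨x, hx0, hx, hxt, hy⟩ hr hrle hE
  -- scale
  obtain ⟨M, hM⟩ : ∃ M : ℝ, ∀ k < m, x k ≤ M := by
    refine ⟨∑ k ∈ range m, x k, fun k hk => ?_⟩
    exact Finset.single_le_sum (fun i _ => (hx0 i).le) (Finset.mem_range.2 hk)
  set s := max 4 (|M| + 1) with hs
  have hs4 : 4 ≤ s := le_max_left _ _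
  have hsM : |M| + 1 ≤ s := le_max_right _ _
  have hs0 : 0 < s := by linarith
  set x' : ℕ → ℝ := fun i => x i / s with hx'
  have hx0' : ∀ k, 0 < x' k := fun k => div_pos (hx0 k) hs0
  have hxx' : ∀ k, x' k < x' (k + m) := fun k => div_lt_div_of_pos_right (hx k) hs0
  have hxt' : ∀ k, Tendsto (fun l => x' (k + l * m)) atTop atTop :=
    fun k => (hxt k).atTop_div_const hs0
  have hx1' : ∀ k < m, x' k < 1 := by
    intro k hk
    simp only [hx']
    rw [div_lt_one hs0]
    have := hM k hk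
    have := le_abs_self M
    linarith
  have hH := hyp_of_cyc hm hp0 hp1 hr hs0 hx0 hx hy hE
  have hκ := kappa hm hp0 hp1 hx0' hxx' hxt' hH
  have hh1 : 1 / s ≤ 1 / 4 := one_div_le_one_div_of_le (by norm_num) hs4
  have hεr : 2 * ε * r ≤ p * (1 - p) ^ 2 * (2 - p) := by
    rw [le_div_iff₀ (by positivity)] at hε2
    have : ε * r ≤ ε * rmax := mul_le_mul_of_nonneg_left hrle hε0.le
    linarith
  refine ⟨ρ1 m, y1 m x' ε, y1_traj hm hε0 hx0' hxx', fun j hj d hd => ?_⟩
  exact zig_bound hm hp0 hp1 hε0 hε1 hx0' hxx' hxt' hx1' hh1 hH hκ hεr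
    ((min_le_left _ _).trans (min_le_left _ _)) ((min_le_left _ _).trans (min_le_right _ _))
    ((min_le_right _ _).trans (min_le_left _ _)) ((min_le_right _ _).trans (min_le_right _ _))
    hj hd

/-! ### A cyclic monotone trajectory of finite ratio -/

lemma cyc_beg {ρ : ℕ → ℕ} {y x : ℕ → ℝ} (hx : ∀ k, x k < x (k + m))
    (hy : ∀ k, y (2 * k) = 0 ∧ y (2 * k + 1) = x k ∧ ρ (2 * k) = k % m ∧ ρ (2 * k + 1) = k % m)
    (n : ℕ) {h : ℝ} (h0 : 0 < h) (h1 : x n < h) :
    VV p ρ y (n % m) h (2 * (n + m)) = 0 ∧ surv p ρ y (n % m) h (2 * (n + m)) = 1 := by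
  set j := n % m with hj
  have hskip : ∀ k, (k % m ≠ j ∨ x k < h) → VV p ρ y j h (2 * (k + 1)) = VV p ρ y j h (2 * k) ∧
      surv p ρ y j h (2 * (k + 1)) = surv p ρ y j h (2 * k) := by
    intro k hk
    obtain ⟨d1, d2⟩ := cyc_skip (p := p) hy h0 k hk
    constructor
    · rw [show 2 * (k + 1) = 2 * k + 1 + 1 by ring, VV_succ, VV_succ, d1, d2]; ring
    · rw [show 2 * (k + 1) = 2 * k + 1 + 1 by ring, surv_succ, surv_succ, d1, d2]; ring
  have hbeg : ∀ k, k ≤ n + m → VV p ρ y j h (2 * k) = 0 ∧ surv p ρ y j h (2 * k) = 1 := by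
    intro k
    induction k with
    | zero => intro _; simp [VV, surv]
    | succ k ih =>
      intro hk
      have hc : k % m ≠ j ∨ x k < h := by
        by_cases hkj : k % m = j
        · right
          rcases Nat.lt_or_ge n k with hlt | hge
          · exfalso
            have h3 : m ∣ k - n := (Nat.modEq_iff_dvd' hlt.le).1 (show n ≡ k [MOD m] from
              (hkj.trans hj).symm)
            have := Nat.le_of_dvd (by omega) h3
            omega
          · exact lt_of_le_of_lt (mono_res' hx hge (hkj.trans hj)) h1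
        · left; exact hkj
      obtain ⟨s1, s2⟩ := hskip k hc
      obtain ⟨i1, i2⟩ := ih (by omega)
      exact ⟨s1.trans i1, s2.trans i2⟩
  exact hbeg (n + m) le_rfl

lemma finite_cyc (hm : 0 < m) (hp0 : 0 < p) (hp1 : p < 1) :
    ∃ (ρ : ℕ → ℕ) (y : ℕ → ℝ) (C : ℝ), IsTrajectory m ρ y ∧ IsCyclicMonotone m ρ y ∧ 0 ≤ C ∧
      ∀ j < m, ∀ d : ℝ, 1 ≤ d → expTime p ρ y j d ≤ ENNReal.ofReal (C * d) := by
  have hq : 0 < 1 - p := by linarith
  have hm' : (0 : ℝ) < m := by exact_mod_cast hm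
  set b : ℝ := (1 / (1 - p)) ^ (1 / (m : ℝ)) with hb
  have hb1 : 1 < b := by
    apply Real.one_lt_rpow
    · rw [one_lt_div hq]; linarith
    · positivity
  have hbm : b ^ m = 1 / (1 - p) := by
    rw [hb, ← Real.rpow_natCast, ← Real.rpow_mul (by positivity), one_div_mul_cancel hm'.ne',
      Real.rpow_one]
  have hb0 : 0 < b := by linarith
  set x : ℕ → ℝ := fun k => b ^ k / b ^ m with hxd
  have hx0 : ∀ k, 0 < x k := fun k => by simp only [hxd]; positivity
  have hx : ∀ k, x k < x (k + m) := by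
    intro k
    simp only [hxd]
    apply div_lt_div_of_pos_right _ (by positivity)
    exact pow_lt_pow_right₀ hb1 (by omega)
  have hxt : ∀ k, Tendsto (fun l => x (k + l * m)) atTop atTop := by
    intro k
    have h1 : Tendsto (fun l : ℕ => b ^ l / b ^ m) atTop atTop :=
      (tendsto_pow_atTop_atTop_of_one_lt hb1).atTop_div_const (by positivity)
    have h2 : Tendsto (fun l : ℕ => k + l * m) atTop atTop := by
      apply tendsto_atTop_mono (fun l => ?_) tendsto_id
      have : l * 1 ≤ l * m := Nat.mul_le_mul_left l hm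
      simp only [id]
      omega
    exact h1.comp h2
  let y : ℕ → ℝ := fun k => if k % 2 = 0 then 0 else x (k / 2)
  let ρ : ℕ → ℕ := fun k => (k / 2) % m
  have hy : ∀ k, y (2 * k) = 0 ∧ y (2 * k + 1) = x k ∧ ρ (2 * k) = k % m ∧
      ρ (2 * k + 1) = k % m := by
    intro k
    refine ⟨?_, ?_, ?_, ?_⟩
    · simp only [y]; rw [if_pos (by omega)]
    · simp only [y]; rw [if_neg (by omega)]; congr 1; omega
    · simp only [ρ]; congr 1; omega
    · simp only [ρ]; congr 1; omega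
  have hcases : ∀ k : ℕ, ∃ n, k = 2 * n ∨ k = 2 * n + 1 := fun k => ⟨k / 2, by omega⟩
  have htraj : IsTrajectory m ρ y := by
    refine ⟨by simpa using (hy 0).1, ?_, ?_, ?_, ?_, ?_⟩
    · intro k
      obtain ⟨n, h | h⟩ := hcases k <;> rw [h]
      · rw [(hy n).1]
      · rw [(hy n).2.1]; exact (hx0 n).le
    · intro k
      obtain ⟨n, h | h⟩ := hcases k <;> rw [h]
      · rw [(hy n).1, (hy n).2.1]; exact (hx0 n).ne'
      · rw [show 2 * n + 1 + 1 = 2 * (n + 1) by ring, (hy (n + 1)).1, (hy n).2.1]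
        exact (hx0 n).ne
    · intro k; simp only [ρ]; exact Nat.mod_lt _ hm
    · intro k
      obtain ⟨n, h | h⟩ := hcases k <;> rw [h]
      · intro _; rw [(hy n).2.2.1, (hy n).2.2.2]
      · intro h'
        rw [show 2 * n + 1 + 1 = 2 * (n + 1) by ring] at h'
        exact absurd (hy (n + 1)).1 h'
    · intro hs
      have h1 := hs.tendsto_atTop_zero
      have h2 : Tendsto (fun l : ℕ => 2 * (l * m)) atTop atTop := by
        apply tendsto_atTop_mono (fun l => ?_) tendsto_id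
        have : l * 1 ≤ l * m := Nat.mul_le_mul_left l hm
        simp only [id]
        omega
      have h3 := h1.comp h2
      have h4 : ∀ l, x 0 ≤ ((fun k => |y (k + 1) - y k|) ∘ (fun l : ℕ => 2 * (l * m))) l := by
        intro l
        simp only [Function.comp]
        rw [(hy _).1, (hy _).2.1, sub_zero, abs_of_pos (hx0 _)]
        have := mono_res hx 0 l
        rwa [zero_add] at this
      have := ge_of_tendsto' h3 h4
      exact absurd (hx0 0) (not_lt.2 this)
  -- bounds for the times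
  have hSS : ∀ k, SS x k ≤ 2 / (b - 1) * (b ^ k / b ^ m) := by
    intro k
    induction k with
    | zero =>
      simp only [SS, Finset.range_zero, Finset.sum_empty, mul_zero]
      have : 0 < b - 1 := by linarith
      positivity
    | succ k ih =>
      rw [SS_succ]
      have hb2 : b - 1 ≠ 0 := by linarith
      have e : 2 / (b - 1) * (b ^ (k + 1) / b ^ m) =
          2 / (b - 1) * (b ^ k / b ^ m) + 2 * (b ^ k / b ^ m) := by
        rw [pow_succ]; field_simp; ring
      rw [e]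
      simp only [hxd]
      linarith
  set C1 := 2 / (b - 1) * b * (1 / (1 - p)) with hC1
  have hC10 : 0 ≤ C1 := by
    have : 0 < b - 1 := by linarith
    positivity
  have hterm : ∀ (n : ℕ) (d : ℝ), x n < d → ∀ l, SS x (n + m + l * m + 1) ≤
      C1 * d * (1 / (1 - p)) ^ l := by
    intro n d hnd l
    refine (hSS _).trans ?_
    have h1 : b ^ n ≤ d * (1 / (1 - p)) := by
      simp only [hxd] at hnd
      rw [div_lt_iff₀ (by positivity), hbm] at hnd
      exact hnd.le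
    have e : b ^ (n + m + l * m + 1) / b ^ m = b ^ n * b * (1 / (1 - p)) ^ l := by
      rw [pow_succ, pow_add, pow_add, mul_comm l m, pow_mul, hbm]
      field_simp
    rw [e]
    have h2 : 0 < b - 1 := by linarith
    calc 2 / (b - 1) * (b ^ n * b * (1 / (1 - p)) ^ l)
        ≤ 2 / (b - 1) * (d * (1 / (1 - p)) * b * (1 / (1 - p)) ^ l) := by
          apply mul_le_mul_of_nonneg_left _ (by positivity)
          apply mul_le_mul_of_nonneg_right _ (by positivity)
          exact mul_le_mul_of_nonneg_right h1 hb0.le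
      _ = C1 * d * (1 / (1 - p)) ^ l := by rw [hC1]; ring
  set C := C1 * (1 / p) + 1 / (p * (2 - p)) + 1 with hCd
  have hC0 : 0 ≤ C := by
    have : 0 < 2 - p := by linarith
    positivity
  refine ⟨ρ, y, C, htraj, ⟨x, hx0, hx, hxt, hy⟩, hC0, ?_⟩
  intro j hj d hd
  have hd0 : 0 < d := by linarith
  -- locate
  obtain ⟨n, hnj, hnd, hdX⟩ : ∃ n, n % m = j ∧ x n < d ∧ d ≤ x (n + m) := by
    classical
    have hex : ∃ n, n % m = j ∧ d ≤ x (n + m) := by
      obtain ⟨l, hl⟩ := ((hxt (j + m)).eventually_ge_atTop d).exists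
      refine ⟨j + l * m, ?_, ?_⟩
      · rw [Nat.add_mul_mod_self_right, Nat.mod_eq_of_lt hj]
      · rw [show j + l * m + m = j + m + l * m by ring]; exact hl
    obtain ⟨h1, h2⟩ := Nat.find_spec hex
    have hmin := fun k (hk : k < Nat.find hex) => Nat.find_min hex hk
    set n := Nat.find hex with hn
    refine ⟨n, h1, ?_, h2⟩
    rcases Nat.lt_or_ge n m with h3 | h3
    · have : x n < 1 := by
        simp only [hxd]
        rw [div_lt_one (by positivity)]
        exact pow_lt_pow_right₀ hb1 h3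
      linarith
    · have h4 := hmin (n - m) (by omega)
      rw [not_and] at h4
      have h5 : (n - m) % m = j := by
        rw [← h1]
        conv_rhs => rw [show n = n - m + m by omega, Nat.add_mod_right]
      have h6 := h4 h5
      rw [Nat.sub_add_cancel h3] at h6
      exact not_le.1 h6
  subst hnj
  rcases eq_or_lt_of_le hdX with hX | hX
  · -- certain detection
    obtain ⟨b1, b2⟩ := cyc_beg (p := p) hx hy n hd0 hnd
    have hdet : det p ρ y (n % m) d (2 * (n + m)) = 1 := by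
      unfold det
      rw [if_pos]
      rw [(hy (n + m)).1, (hy (n + m)).2.1, (hy (n + m)).2.2.1,
        show 2 * (n + m) + 2 = 2 * (n + m + 1) by ring, (hy (n + m + 1)).1]
      refine ⟨Nat.add_mod_right _ _, hX, ?_⟩
      have := hx0 (n + m)
      exact mul_neg_of_pos_of_neg (by linarith) (by linarith)
    have hS : surv p ρ y (n % m) d (2 * (n + m) + 1) = 0 := by
      rw [surv_succ, hdet]; ring
    have hV : VV p ρ y (n % m) d (2 * (n + m) + 1) = SS x (n + m) + d := by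
      rw [VV_succ, b1, b2, hdet, (hy (n + m)).1, (cyc_time hx0 hy (n + m)).1, sub_zero,
        abs_of_pos hd0]
      ring
    apply expTime_le hp0.le hp1.le
    · intro K
      obtain ⟨-, z2⟩ := surv_zero hS K
      calc VV p ρ y (n % m) d K ≤ VV p ρ y (n % m) d (2 * (n + m) + 1 + K) :=
            VV_mono hp0.le hp1.le (by omega)
        _ = SS x (n + m) + d := by rw [z2, hV]
        _ ≤ C * d := by
            have h1 := hterm n d hnd 0
            simp only [zero_mul, add_zero, pow_zero, mul_one] at h1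
            have h2 : SS x (n + m) ≤ SS x (n + m + 1) := SS_mono hx0 (by omega)
            have h3 : C1 * d ≤ C1 * (1 / p) * d := by
              apply mul_le_mul_of_nonneg_right _ hd0.le
              have : 1 ≤ 1 / p := by rw [le_div_iff₀ hp0]; linarith
              nlinarith
            have h4 : 0 ≤ 1 / (p * (2 - p)) * d := by
              have : 0 < 2 - p := by linarith
              positivity
            rw [hCd]
            linarith
    · intro η hη
      exact ⟨_, by rw [hS]; exact hη⟩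
  · have hVL := fun L => cyc_VV (p := p) hm hx0 hx hy n hnd hX L
    have hw1 : (1 - p) ^ 2 < 1 := pow_lt_one₀ hq.le (by linarith) (by norm_num)
    apply expTime_le hp0.le hp1.le
    · intro K
      refine le_trans (VV_mono hp0.le hp1.le (?_ : K ≤ 2 * (n + m + K * m))) ?_
      · have : K * 1 ≤ K * m := Nat.mul_le_mul_left _ hm
        omega
      · rw [(hVL K).1]
        have hg1 := hasSum_geometric_of_lt_one hq.le (by linarith : 1 - p < 1)
        have hg2 := hasGeo hp0 hp1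
        have hsum := (hg1.mul_left (C1 * d)).add (hg2.mul_left d)
        have hle : ∀ l ∈ range K, ((1 - p) ^ 2) ^ l * (p * (SS x (n + m + l * m) + d) +
            p * (1 - p) * (SS x (n + m + l * m + 1) - d)) ≤
            C1 * d * (1 - p) ^ l + d * ((1 - p) ^ 2) ^ l := by
          intro l _
          have h1 := hterm n d hnd l
          have h2 : SS x (n + m + l * m) ≤ SS x (n + m + l * m + 1) := SS_mono hx0 (by omega)
          have h3 := SS_nonneg hx0 (n + m + l * m + 1)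
          have h4 : p * (SS x (n + m + l * m) + d) +
              p * (1 - p) * (SS x (n + m + l * m + 1) - d) ≤
              C1 * d * (1 / (1 - p)) ^ l + d := by
            have k1 : p * SS x (n + m + l * m) ≤ p * SS x (n + m + l * m + 1) :=
              mul_le_mul_of_nonneg_left h2 hp0.le
            have k2 : p * (2 - p) ≤ 1 := by nlinarith
            have k3 : p * (2 - p) * SS x (n + m + l * m + 1) ≤ 1 * SS x (n + m + l * m + 1) :=
              mul_le_mul_of_nonneg_right k2 h3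
            have k4 : p * p * d ≤ 1 * d := by
              apply mul_le_mul_of_nonneg_right _ hd0.le
              nlinarith
            linarith
          have h5 : 0 ≤ ((1 - p) ^ 2) ^ l := by positivity
          have e1 : ((1 - p) ^ 2) ^ l * (1 / (1 - p)) ^ l = (1 - p) ^ l := by
            rw [← mul_pow]; congr 1; field_simp
          calc _ ≤ ((1 - p) ^ 2) ^ l * (C1 * d * (1 / (1 - p)) ^ l + d) :=
                mul_le_mul_of_nonneg_left h4 h5
            _ = C1 * d * (((1 - p) ^ 2) ^ l * (1 / (1 - p)) ^ l) + d * ((1 - p) ^ 2) ^ l := by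
                ring
            _ = _ := by rw [e1]
        refine (Finset.sum_le_sum hle).trans ((sum_le_hasSum (range K) ?_ hsum).trans ?_)
        · intro l _; positivity
        · have e2 : (1 - (1 - p))⁻¹ = 1 / p := by
            rw [one_div]; congr 1; ring
          rw [e2, hCd]
          have : 0 ≤ 1 * d := by linarith
          linarith
    · intro η hη
      obtain ⟨L, hL'⟩ := exists_pow_lt_of_lt_one hη hw1
      exact ⟨_, by rw [(hVL L).2]; exact hL'⟩

/-- bound of the ratio from bounds of the expected times -/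
lemma ratio_le (hp0 : 0 < p) {ρ : ℕ → ℕ} {y : ℕ → ℝ} {C : ℝ}
    (h : ∀ j < m, ∀ d : ℝ, 1 ≤ d → expTime p ρ y j d ≤ ENNReal.ofReal (C * d)) :
    ratio m p ρ y ≤ ENNReal.ofReal (p * C) := by
  unfold ratio
  refine iSup₂_le fun j hj => iSup₂_le fun d hd => ?_
  have hd0 : 0 < d := by linarith
  have h1 := h j hj d hd
  rw [ENNReal.div_le_iff (by simpa using hd0) ENNReal.ofReal_ne_top]
  calc ENNReal.ofReal p * expTime p ρ y j d ≤ ENNReal.ofReal p * ENNReal.ofReal (C * d) := by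
        gcongr
    _ = ENNReal.ofReal (p * C) * ENNReal.ofReal d := by
        rw [← ENNReal.ofReal_mul hp0.le, ← ENNReal.ofReal_mul' hd0.le]
        congr 1; ring

/-- bounds of the expected times from a bound of the ratio -/
lemma of_ratio_le (hp0 : 0 < p) {ρ : ℕ → ℕ} {y : ℕ → ℝ} {R : ℝ}
    (h : ratio m p ρ y ≤ ENNReal.ofReal R) (j : ℕ) (hj : j < m) (d : ℝ) (hd : 1 ≤ d) :
    expTime p ρ y j d ≤ ENNReal.ofReal (R / p * d) := by
  have hd0 : 0 < d := by linarith
  have h1 : ENNReal.ofReal p * expTime p ρ y j d / ENNReal.ofReal d ≤ ENNReal.ofReal R := by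
    refine le_trans ?_ h
    unfold ratio
    exact le_iSup₂_of_le j hj (le_iSup₂_of_le d hd le_rfl)
  rw [ENNReal.div_le_iff (by simpa using hd0) ENNReal.ofReal_ne_top] at h1
  have h2 : ENNReal.ofReal (R / p * d) = (ENNReal.ofReal R * ENNReal.ofReal d) /
      ENNReal.ofReal p := by
    rw [← ENNReal.ofReal_mul' hd0.le, ← ENNReal.ofReal_div_of_pos hp0]
    congr 1; ring
  rw [h2, ENNReal.le_div_iff_mul_le (Or.inl (by simpa using hp0)) (Or.inl ENNReal.ofReal_ne_top)]
  rw [mul_comm]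
  exact h1

/-- every cyclic monotone trajectory has `expTime ≥ 2 d` up to sup -/
lemma cyc_lower (hm : 0 < m) (hp0 : 0 < p) (hp1 : p < 1) {ρ : ℕ → ℕ} {y : ℕ → ℝ} {r : ℝ}
    (hr : 0 ≤ r) (hc : IsCyclicMonotone m ρ y)
    (hE : ∀ j < m, ∀ d : ℝ, 1 ≤ d → expTime p ρ y j d ≤ ENNReal.ofReal (r * d)) : 2 ≤ r := by
  obtain ⟨x, hx0, hx, hxt, hy⟩ := hc
  have hH := hyp_of_cyc hm hp0 hp1 hr one_pos hx0 hx hy hE
  have hk := kappa (x := fun i => x i / 1) hm hp0 hp1 (fun k => by simpa using hx0 k)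
    (fun k => by simpa using hx k) (fun k => by simpa using hxt k) hH
  have : 0 < p / (2 - p) := div_pos hp0 (by linarith)
  linarith

end final

/-- **Q1 is disproved for every number of rays and every detection probability.** For all `m ≥ 2` and
`p ∈ (0, 1)` the infimum of the competitive ratio over all trajectories is strictly smaller than the
infimum over the cyclic monotone trajectories (which is finite). -/
theorem result (m : ℕ) (hm : 2 ≤ m) (p : ℝ) (hp0 : 0 < p) (hp1 : p < 1) :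
    (⨅ (ρ : ℕ → ℕ) (y : ℕ → ℝ) (_ : IsTrajectory m ρ y), ratio m p ρ y) <
      (⨅ (ρ : ℕ → ℕ) (y : ℕ → ℝ) (_ : IsTrajectory m ρ y) (_ : IsCyclicMonotone m ρ y),
        ratio m p ρ y) ∧
    (⨅ (ρ : ℕ → ℕ) (y : ℕ → ℝ) (_ : IsTrajectory m ρ y) (_ : IsCyclicMonotone m ρ y),
        ratio m p ρ y) < ⊤ := by
  have hm0 : 0 < m := by omega
  set I := (⨅ (ρ : ℕ → ℕ) (y : ℕ → ℝ) (_ : IsTrajectory m ρ y) (_ : IsCyclicMonotone m ρ y),
        ratio m p ρ y) with hI
  have hfin : I < ⊤ := by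
    obtain ⟨ρ, y, C, h1, h2, h3, h4⟩ := finite_cyc hm0 hp0 hp1
    refine lt_of_le_of_lt ?_ (ENNReal.ofReal_lt_top (r := p * C))
    exact (iInf₂_le ρ y).trans ((iInf₂_le h1 h2).trans (ratio_le hp0 h4))
  refine ⟨?_, hfin⟩
  obtain ⟨δ, hδ0, himp⟩ := improve hm0 hp0 hp1 ((I.toReal + 1) / p)
    (by have := ENNReal.toReal_nonneg (a := I); positivity)
  set η := min (min 1 p) (p * δ / 2) with hη
  have hη0 : 0 < η := lt_min (lt_min one_pos hp0) (by positivity)
  have hη1 : η ≤ 1 := (min_le_left _ _).trans (min_le_left _ _)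
  have hη3 : η ≤ p := (min_le_left _ _).trans (min_le_right _ _)
  have hη2 : η ≤ p * δ / 2 := min_le_right _ _
  have hlt : I < I + ENNReal.ofReal η := by
    apply ENNReal.lt_add_right hfin.ne
    simpa using hη0
  obtain ⟨ρ, hρ⟩ := iInf_lt_iff.1 (hI ▸ hlt : (⨅ (ρ : ℕ → ℕ) (y : ℕ → ℝ)
    (_ : IsTrajectory m ρ y) (_ : IsCyclicMonotone m ρ y), ratio m p ρ y) <
      I + ENNReal.ofReal η)
  obtain ⟨y, hy⟩ := iInf_lt_iff.1 hρ
  obtain ⟨h1, hy⟩ := iInf_lt_iff.1 hy
  obtain ⟨h2, hy⟩ := iInf_lt_iff.1 hy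
  set R := I.toReal + η with hR
  have hR0 : 0 ≤ R := by
    have := ENNReal.toReal_nonneg (a := I); linarith
  have hIR : I + ENNReal.ofReal η = ENNReal.ofReal R := by
    rw [hR, ENNReal.ofReal_add ENNReal.toReal_nonneg hη0.le, ENNReal.ofReal_toReal hfin.ne]
  rw [hIR] at hy
  have hE := of_ratio_le hp0 hy.le
  obtain ⟨ρ', y', g1, g2⟩ := himp ρ y (R / p) h2 (by positivity)
    (div_le_div_of_nonneg_right (by linarith) hp0.le) hE
  have g3 := ratio_le hp0 g2
  have g4 : p * (R / p - δ) < I.toReal := by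
    have : p * (R / p - δ) = R - p * δ := by field_simp
    rw [this]
    have : 0 < p * δ := by positivity
    linarith
  calc (⨅ (ρ : ℕ → ℕ) (y : ℕ → ℝ) (_ : IsTrajectory m ρ y), ratio m p ρ y)
      ≤ ratio m p ρ' y' := (iInf₂_le ρ' y').trans (iInf_le _ g1)
    _ ≤ ENNReal.ofReal (p * (R / p - δ)) := g3
    _ < I := by
        have h5 := cyc_lower hm0 hp0 hp1 (by positivity) h2 hE
        rw [le_div_iff₀ hp0] at h5
        rw [← ENNReal.ofReal_toReal hfin.ne]
        exact (ENNReal.ofReal_lt_ofReal_iff (by linarith)).2 g4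

end Pool.Agent.Results.MP_d94893_lc.NotCyclicRays
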